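import Pool.Agent.MP_e8e0b6_ag.T.Defs
import Pool.Agent.MP_e8e0b6_ag.Z.Main

-- ======== part 0: formerly Pool.Agent.MP_e8e0b6_ag.T.Base
section MrgPart0

/-!
Working definitions for towers: charts, sections over lines, arcs and jets.
-/

open AlgebraicGeometry CategoryTheory Limits Polynomial

namespace Pool.Agent.MP_e8e0b6_ag.T

variable {k A B T : Type} [Field k] [CommRing A] [CommRing B] [CommRing T] {S X X' : Scheme.{0}}
  {n : ℕ}

variable (k A) in
/-- Etale over a polynomial ring. -/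
def Et [Algebra k A] : Prop :=
  ∃ (d : ℕ) (z : MvPolynomial (Fin d) k →ₐ[k] A), z.toRingHom.Etale

/-- Every family of lines in `S` lifts to `X` near each parameter value. -/
def Sec (f : S ⟶ Spec (.of k)) (π : X ⟶ S) : Prop :=
  ∀ (A : Type) [CommRing A] [IsDomain A] [Algebra k A], Et k A → ∀ (x : A →ₐ[k] k)
    (σ : Spec (.of A[X]) ⟶ S), σ ≫ f = sp (algebraMap k A[X]) →
    ∃ (A₁ : Type) (_ : CommRing A₁) (_ : IsDomain A₁) (_ : Algebra k A₁) (ε : A →ₐ[k] A₁)
      (x₁ : A₁ →ₐ[k] k) (q : Spec (.of A₁[X]) ⟶ X), Et k A₁ ∧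
      IsOpenImmersion (sp (ε : A →+* A₁)) ∧ x₁.comp ε = x ∧
      q ≫ π = sp (mapRingHom (ε : A →+* A₁)) ≫ σ

/-- A chart `Spec B × 𝔸ⁿ` of `X` over the chart `Spec B` of `S`, with a base point `e`. -/
structure Cell (f : S ⟶ Spec (.of k)) (π : X ⟶ S) (n : ℕ) where
  B : Type
  [ring : CommRing B]
  [dom : IsDomain B]
  [alg : Algebra k B]
  et : Et k B
  e : B →ₐ[k] k
  j : Spec (.of B) ⟶ S
  h : Spec (.of (MvPolynomial (Fin n) B)) ⟶ X
  [oj : IsOpenImmersion j]
  [oh : IsOpenImmersion h]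
  base : j ≫ f = sp (algebraMap k B)
  proj : h ≫ π = sp MvPolynomial.C ≫ j

attribute [instance] Cell.ring Cell.dom Cell.alg Cell.oj Cell.oh

variable {f : S ⟶ Spec (.of k)} {π : X ⟶ S}

/-- The point `y` lies in the chart, above the base point. -/
def Cell.Has (c : Cell f π n) (y : Spec (.of k) ⟶ X) : Prop :=
  ∃ a : Fin n → k, sp (MvPolynomial.eval₂Hom (c.e : c.B →+* k) a) ≫ c.h = y

/-- The section `z` is the origin of the chart. -/
def Cell.Zero (c : Cell f π n) (z : S ⟶ X) : Prop :=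
  sp MvPolynomial.constantCoeff ≫ c.h = c.j ≫ z

/-- Change of the fibre coordinates of a chart. -/
noncomputable def Cell.twist (c : Cell f π n)
    (α : MvPolynomial (Fin n) c.B ≃ₐ[c.B] MvPolynomial (Fin n) c.B) : Cell f π n where
  B := c.B
  et := c.et
  e := c.e
  j := c.j
  h := sp α.toAlgHom.toRingHom ≫ c.h
  oh := by
    have : IsIso (sp α.toAlgHom.toRingHom) :=
      inferInstanceAs (IsIso (Spec.map α.toRingEquiv.toCommRingCatIso.hom))
    infer_instance
  base := c.base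
  proj := by
    rw [Category.assoc, c.proj, sp_comp_assoc]
    exact congrArg (sp · ≫ _) α.toAlgHom.comp_algebraMap

/-- Finitely many points of a fibre lie in one chart. -/
def Cellular (f : S ⟶ Spec (.of k)) (π : X ⟶ S) (n : ℕ) : Prop :=
  ∀ s : Spec (.of k) ⟶ S, s ≫ f = 𝟙 _ → ∀ Y : Set (Spec (.of k) ⟶ X), Y.Finite →
    (∀ y ∈ Y, y ≫ π = s) → ∃ c : Cell f π n, sp (c.e : c.B →+* k) ≫ c.j = s ∧ ∀ y ∈ Y, c.Has y

/-- The inverse image of `z` under `q` is the closed subscheme defined by `I`. -/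
def Cuts (z : S ⟶ X) (q : Spec (.of A) ⟶ X) (I : Ideal A) : Prop :=
  ∀ (T : Type) [CommRing T] (μ : A →+* T),
    (∃ s : Spec (.of T) ⟶ S, s ≫ z = sp μ ≫ q) ↔ ∀ a ∈ I, μ a = 0

/-- The first chart of the blow-up of the origin. -/
noncomputable def beta (B : Type) [CommRing B] (n : ℕ) :
    MvPolynomial (Fin (n + 1)) B →+* MvPolynomial (Fin (n + 1)) B :=
  MvPolynomial.eval₂Hom MvPolynomial.C fun i =>
    if i = 0 then MvPolynomial.X 0 else MvPolynomial.X 0 * MvPolynomial.X i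

/-- The line through the origin in the direction `ν`. -/
noncomputable def arc (b : B →+* T) (ν : Fin n → T) : MvPolynomial (Fin n) B →+* T[X] :=
  MvPolynomial.eval₂Hom (C.comp b) fun a => Polynomial.X * C (ν a)

/-- The tangent vector `v` at the origin. -/
noncomputable def jet (b : B →+* T) (v : Fin n → T) : MvPolynomial (Fin n) B →+* DualNumber T :=
  MvPolynomial.eval₂Hom ((inlR T).comp b) fun a => TrivSqZeroExt.inr (v a)

/-- `q` is the point of the exceptional divisor given by the direction `ν`. -/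
def Exc (ρ : X' ⟶ X) (c : Cell f π n) (b : c.B →+* T) (ν : Fin n → T) (q : Spec (.of T) ⟶ X') :
    Prop :=
  ∃ γ : Spec (.of T[X]) ⟶ X', γ ≫ ρ = sp (arc b ν) ≫ c.h ∧ sp constantCoeff ≫ γ = q

theorem range_iso {W : Scheme.{0}} {V : X.Opens} (e : W ≅ V) :
    Set.range (e.hom ≫ V.ι) = V := by
  rw [Scheme.Hom.comp_base, TopCat.coe_comp, Set.range_comp, e.hom.surjective.range_eq,
    Set.image_univ, Scheme.Opens.range_ι]

theorem of_cells (h : Cells f π n) (s : Spec (.of k) ⟶ S) (hs : s ≫ f = 𝟙 _)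
    (Y : Set (Spec (.of k) ⟶ X)) (hY : Y.Finite) (hY' : ∀ y ∈ Y, y ≫ π = s) :
    ∃ (U : S.Opens) (h : 𝔸(Fin n; U) ⟶ X), IsOpenImmersion h ∧ h ≫ π = 𝔸(Fin n; U) ↘ U ≫ U.ι ∧
      Set.range s ⊆ U ∧ ∀ y ∈ Y, Set.range y ⊆ Set.range h := by
  obtain ⟨U, V, e, h1, ⟨t, rfl⟩, h2⟩ := h s hs Y hY hY'
  refine ⟨U, e.hom ≫ V.ι, inferInstance, by rwa [Category.assoc],
    Set.range_subset_iff.2 fun w => (t w).2, fun y hy => ?_⟩
  obtain ⟨t, rfl⟩ := h2 y hy
  rw [range_iso]
  exact Set.range_subset_iff.2 fun w => (t w).2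

theorem cartier_iff {W : Scheme.{0}} {z : S ⟶ X} {q : W ⟶ X} : Cartier z q ↔
    ∀ w : W, ∃ (A : Type) (_ : CommRing A) (u : Spec (.of A) ⟶ W) (a : A)
      (s : Spec (.of (A ⧸ Ideal.span {a})) ⟶ S), IsOpenImmersion u ∧ w ∈ Set.range u ∧
      a ∈ nonZeroDivisors A ∧ IsPullback (sp (Ideal.Quotient.mk (Ideal.span {a}))) s (u ≫ q) z := by
  refine forall_congr' fun w => ⟨?_, ?_⟩
  · rintro ⟨V, A, _, e, a, s, h1, h2, h3⟩
    exact ⟨A, _, e.hom ≫ V.ι, a, s, inferInstance, by rwa [range_iso], h2,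
      by rwa [Category.assoc]⟩
  · rintro ⟨A, _, u, a, s, _, h1, h2, h3⟩
    exact ⟨u.opensRange, A, _, u.isoOpensRange, a, s, h1, h2,
      by rwa [Scheme.Hom.isoOpensRange_hom_ι_assoc]⟩

theorem Et.finiteType [Algebra k A] (h : Et k A) : Algebra.FiniteType k A :=
  let ⟨_, z, hz⟩ := h; finiteType_of_etale z hz

theorem Et.away [Algebra k A] (h : Et k A) (t : A) (E : Type) [CommRing E] [Algebra A E]
    [Algebra k E] [IsScalarTower k A E] [IsLocalization.Away t E] : Et k E :=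
  let ⟨d, z, hz⟩ := h
  ⟨d, (IsScalarTower.toAlgHom k A E).comp z, RingHom.Etale.stableUnderComposition _ _ hz
    (RingHom.etale_algebraMap.2 (.of_isLocalizationAway t))⟩

/-- Inverting an element that does not vanish at the base point. -/
theorem Et.loc [IsDomain A] [Algebra k A] (h : Et k A) (x : A →ₐ[k] k) {t : A} (ht : x t ≠ 0) :
    ∃ (E : Type) (_ : CommRing E) (_ : IsDomain E) (_ : Algebra k E) (ε : A →ₐ[k] E)
      (x' : E →ₐ[k] k), Et k E ∧ IsOpenImmersion (sp (ε : A →+* E)) ∧ x'.comp ε = x ∧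
      Function.Injective ε ∧ IsUnit (ε t) ∧
      IsOpenImmersion (sp (mapRingHom (ε : A →+* E))) ∧
      ∀ n, IsOpenImmersion (sp (MvPolynomial.map (σ := Fin n) (ε : A →+* E))) := by
  have le := powers_le_nonZeroDivisors_of_noZeroDivisors fun e : t = 0 => ht (by rw [e, map_zero])
  let E := Localization.Away t
  refine ⟨E, _, IsLocalization.isDomain_of_le_nonZeroDivisors _ le, _, IsScalarTower.toAlgHom k A E,
    IsLocalization.liftAlgHom (M := .powers t) (f := x) fun y => ?_, h.away t E,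
    inferInstanceAs (IsOpenImmersion (sp (algebraMap A E))), ?_, IsLocalization.injective _ le,
    IsLocalization.Away.algebraMap_isUnit t, ?_, fun n => ?_⟩
  · obtain ⟨_, i, rfl⟩ := y
    exact Ne.isUnit (by rw [map_pow]; exact pow_ne_zero _ ht)
  · ext a
    exact IsLocalization.lift_eq _ _
  · let := Polynomial.algebra A E
    have := Polynomial.isLocalization (Submonoid.powers t) E
    rw [Submonoid.map_powers] at this
    exact IsOpenImmersion.of_isLocalization (S := E[X]) (C t)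
  · let := MvPolynomial.algebraMvPolynomial (σ := Fin n) (R := A) (S := E)
    have := MvPolynomial.isLocalization (σ := Fin n) (Submonoid.powers t) E
    rw [Submonoid.map_powers] at this
    exact IsOpenImmersion.of_isLocalization (S := MvPolynomial (Fin n) E) (MvPolynomial.C t)

end Pool.Agent.MP_e8e0b6_ag.T

end MrgPart0

-- ======== part 1: formerly Pool.Agent.MP_e8e0b6_ag.T.Cell
section MrgPart1

/-!
Charts by affine spaces: shrinking, recentring, and the passage from schemes to rings.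
-/

open AlgebraicGeometry CategoryTheory Limits Polynomial IsLocalRing

namespace Pool.Agent.MP_e8e0b6_ag.T

open Z

variable {k A B D E T T' L : Type} [Field k] [CommRing A] [CommRing B] [CommRing D] [CommRing E]
  [CommRing T] [CommRing T'] [Field L] {S X X' W F : Scheme.{0}} {n m : ℕ}
  {f : S ⟶ Spec (.of k)} {π : X ⟶ S} {z : S ⟶ X} {ρ : X' ⟶ X} {φ : F ⟶ Spec (.of k)}
  {G : LinGroup k} {a : G.Action φ}

theorem Cell.shrink (c : Cell f π n) {b : c.B} (hb : c.e b ≠ 0) :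
    ∃ (c' : Cell f π n) (ε : c.B →ₐ[k] c'.B), c'.e.comp ε = c.e ∧ Function.Injective ε ∧
      IsUnit (ε b) ∧ c'.j = sp (ε : c.B →+* c'.B) ≫ c.j ∧
      c'.h = sp (MvPolynomial.map (ε : c.B →+* c'.B)) ≫ c.h ∧ ∀ y, c.Has y → c'.Has y := by
  obtain ⟨E, _, _, _, ε, x', h1, h2, h3, h4, h5, -, h6⟩ := c.et.loc c.e hb
  have := h6 n
  refine ⟨{ B := E
            et := h1
            e := x'
            j := sp (ε : c.B →+* E) ≫ c.j
            h := sp (MvPolynomial.map (ε : c.B →+* E)) ≫ c.h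
            base := ?_
            proj := ?_ }, ε, h3, h4, h5, rfl, rfl, ?_⟩
  · rw [Category.assoc, c.base, sp_comp]
    exact congrArg sp ε.comp_algebraMap
  · rw [Category.assoc, c.proj, sp_comp_assoc, sp_comp_assoc, MvPolynomial.map_comp_C]
  · rintro y ⟨v, rfl⟩
    refine ⟨v, (sp_comp_assoc _ _ _).trans (congrArg (sp · ≫ c.h) ?_)⟩
    refine MvPolynomial.ringHom_ext (fun r => ?_) fun i => by simp
    simpa using DFunLike.congr_fun h3 r

theorem Cell.has_of_range (c : Cell f π n) {y : Spec (.of k) ⟶ X}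
    (h : y (closedPoint k) ∈ Set.range c.h) (e : y ≫ π = sp (c.e : c.B →+* k) ≫ c.j) :
    c.Has y := by
  obtain ⟨r, rfl⟩ := exists_factor y c.h h
  have h1 : r.comp MvPolynomial.C = (c.e : c.B →+* k) := sp_cancel c.j (by
    rw [← sp_comp_assoc, ← c.proj, ← Category.assoc, e])
  refine ⟨fun i => r (MvPolynomial.X i), congrArg (sp · ≫ c.h) ?_⟩
  refine MvPolynomial.ringHom_ext (fun b => ?_) fun i => by simp
  simpa using (DFunLike.congr_fun h1 b).symm

theorem Cell.Has.twist {c : Cell f π n} {y : Spec (.of k) ⟶ X} (h : c.Has y)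
    (α : MvPolynomial (Fin n) c.B ≃ₐ[c.B] MvPolynomial (Fin n) c.B) : (c.twist α).Has y := by
  obtain ⟨v, rfl⟩ := h
  refine ⟨fun i => MvPolynomial.eval₂Hom (c.e : c.B →+* k) v (α.symm (MvPolynomial.X i)),
    (sp_comp_assoc _ _ _).trans (congrArg (sp · ≫ c.h) ?_)⟩
  have h1 : MvPolynomial.eval₂Hom (c.e : c.B →+* k) (fun i =>
      MvPolynomial.eval₂Hom (c.e : c.B →+* k) v (α.symm (MvPolynomial.X i))) =
      (MvPolynomial.eval₂Hom (c.e : c.B →+* k) v).comp α.symm.toAlgHom.toRingHom := by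
    refine MvPolynomial.ringHom_ext (fun b => ?_) fun i => by simp
    have h2 : α.symm (MvPolynomial.C b) = MvPolynomial.C b := α.symm.commutes b
    simp [h2]
  refine RingHom.ext fun p => ?_
  exact (DFunLike.congr_fun h1 (α p)).trans
    (congrArg (MvPolynomial.eval₂Hom (c.e : c.B →+* k) v) (α.symm_apply_apply p))

/-- The part of a chart that lies over an affine open subscheme of the base. -/
theorem exists_affine_chart {U : S.Opens} (h : 𝔸(Fin n; U) ⟶ X) [IsOpenImmersion h]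
    (hp : h ≫ π = 𝔸(Fin n; U) ↘ U ≫ U.ι) (j : Spec (.of A) ⟶ S) [IsOpenImmersion j]
    (hj : Set.range j ⊆ U) : ∃ h' : Spec (.of (MvPolynomial (Fin n) A)) ⟶ X,
      IsOpenImmersion h' ∧ h' ≫ π = sp MvPolynomial.C ≫ j ∧
      ∀ x ∈ Set.range h, π x ∈ Set.range j → x ∈ Set.range h' := by
  obtain ⟨j', rfl⟩ : ∃ j', j' ≫ U.ι = j :=
    ⟨_, IsOpenImmersion.lift_fac _ j (by rwa [Scheme.Opens.range_ι])⟩
  have : IsOpenImmersion j' := IsOpenImmersion.of_comp j' U.ι
  have P := AffineSpace.isPullback_map (n := Fin n) j'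
  have : IsOpenImmersion (AffineSpace.map (Fin n) j') :=
    MorphismProperty.of_isPullback P.flip ‹IsOpenImmersion j'›
  refine ⟨(AffineSpace.SpecIso (Fin n) (.of A)).inv ≫ AffineSpace.map (Fin n) j' ≫ h,
    inferInstance, ?_, ?_⟩
  · rw [Category.assoc, Category.assoc, hp, AffineSpace.map_over_assoc,
      AffineSpace.SpecIso_inv_over_assoc]
  · rintro _ ⟨w, rfl⟩ ⟨p, e⟩
    have h1 : (𝔸(Fin n; U) ↘ U) w = j' p := U.ι.injective (by
      rw [← Scheme.Hom.comp_apply, ← hp, Scheme.Hom.comp_apply, ← e, Scheme.Hom.comp_apply])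
    obtain ⟨w', rfl, -⟩ := Scheme.exists_preimage_of_isPullback P w p h1
    refine ⟨(AffineSpace.SpecIso (Fin n) (.of A)).hom w', ?_⟩
    rw [← Scheme.Hom.comp_apply, Iso.hom_inv_id_assoc, Scheme.Hom.comp_apply]

theorem cellular_of_cells (hS : SmoothVariety f) (h : Cells f π n) : Cellular f π n := by
  intro s hs Y hY hY'
  have := hS.integral
  have := hS.smooth
  obtain ⟨U, h, _, hp, hU, hh⟩ := of_cells h s hs Y hY hY'
  obtain ⟨A, _, j, _, ψ, h1, h2, h3, h4⟩ := exists_piece f (s (closedPoint k)) U (hU ⟨_, rfl⟩)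
    RingHom.IsStandardSmooth fun A _ j _ φ h => (smooth_of_chart j h).locally_isStandardSmooth
  obtain ⟨θ, rfl⟩ := exists_factor s j h1
  have := θ.domain_nontrivial
  have := isDomain_chart j
  let := ψ.toAlgebra
  have h5 : θ.comp ψ = RingHom.id k := sp_inj (by
    rw [← sp_comp, ← h3, ← Category.assoc, hs, sp_id])
  obtain ⟨d, g, hg, hg'⟩ := h4.exists_etale_mvPolynomial
  obtain ⟨h', _, h6, h7⟩ := exists_affine_chart h hp j h2
  let c : Cell f π n :=
    { B := A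
      et := ⟨d, ⟨g, DFunLike.congr_fun hg⟩, hg'⟩
      e := ⟨θ, DFunLike.congr_fun h5⟩
      j := j
      h := h'
      base := h3
      proj := h6 }
  refine ⟨c, rfl, fun y hy => c.has_of_range (h7 _ (hh y hy ⟨_, rfl⟩) ?_) (hY' y hy)⟩
  rw [← Scheme.Hom.comp_apply, hY' y hy]
  exact ⟨_, rfl⟩

theorem cellular_id (hS : SmoothVariety f) : Cellular f (𝟙 S) 0 :=
  cellular_of_cells hS fun s _ Y _ _ =>
    ⟨⊤, ⊤, asIso (𝔸(Fin 0; (⊤ : S.Opens)) ↘ (⊤ : S.Opens)), by simp,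
      ⟨s ≫ S.topIso.inv, by simp⟩, fun y _ => ⟨y ≫ S.topIso.inv, by simp⟩⟩

/-- Translation of the coordinates. -/
noncomputable def shift (v : Fin n → B) : MvPolynomial (Fin n) B ≃ₐ[B] MvPolynomial (Fin n) B :=
  AlgEquiv.ofAlgHom (MvPolynomial.aeval fun i => MvPolynomial.X i + MvPolynomial.C (v i))
    (MvPolynomial.aeval fun i => MvPolynomial.X i - MvPolynomial.C (v i))
    (MvPolynomial.algHom_ext fun i => by simp) (MvPolynomial.algHom_ext fun i => by simp)

theorem shift_X (v : Fin n → B) (i : Fin n) :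
    shift v (MvPolynomial.X i) = MvPolynomial.X i + MvPolynomial.C (v i) :=
  MvPolynomial.aeval_X _ i

theorem Cellular.zero (h : Cellular f π n) (hz : z ≫ π = 𝟙 S) (s : Spec (.of k) ⟶ S)
    (hs : s ≫ f = 𝟙 _) (Y : Set (Spec (.of k) ⟶ X)) (hY : Y.Finite) (hY' : ∀ y ∈ Y, y ≫ π = s) :
    ∃ c : Cell f π n, sp (c.e : c.B →+* k) ≫ c.j = s ∧ c.Zero z ∧ ∀ y ∈ Y, c.Has y := by
  obtain ⟨c, rfl, hc⟩ := h s hs (insert (s ≫ z) Y) (hY.insert _) (by
    rintro y (rfl | hy)
    · rw [Category.assoc, hz, Category.comp_id]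
    · exact hY' y hy)
  obtain ⟨v, hv⟩ := hc _ (Set.mem_insert _ _)
  obtain ⟨b, h1, h2⟩ := exists_basic (σ := c.j ≫ z) (U := c.h.opensRange)
    (sp (c.e : c.B →+* k) (closedPoint k)) (by
      change (sp (c.e : c.B →+* k) ≫ c.j ≫ z) (closedPoint k) ∈ Set.range c.h
      rw [← Category.assoc, ← hv]
      exact ⟨_, rfl⟩)
  obtain ⟨c', ε, e1, -, e2, e3, e4, e5⟩ := c.shrink (b := b) fun e => h1 (by
    change c.e b ∈ maximalIdeal k
    rw [e]; exact zero_mem _)
  obtain ⟨ζ, hζ⟩ : ∃ ζ : MvPolynomial (Fin n) c.B →+* c'.B,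
      sp ζ ≫ c.h = sp (ε : c.B →+* c'.B) ≫ c.j ≫ z := by
    have h3 : Set.range (sp (ε : c.B →+* c'.B) ≫ c.j ≫ z) ⊆ Set.range c.h := by
      rintro _ ⟨w, rfl⟩
      exact mem_of_unit (ρ := (ε : c.B →+* c'.B)) h2 e2 w
    obtain ⟨ζ, hζ⟩ := sp_surj (IsOpenImmersion.lift c.h _ h3)
    exact ⟨ζ, by rw [hζ, IsOpenImmersion.lift_fac]⟩
  have h4 : ζ.comp MvPolynomial.C = (ε : c.B →+* c'.B) := sp_cancel c.j (by
    rw [← sp_comp_assoc, ← c.proj, reassoc_of% hζ, hz, Category.comp_id])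
  refine ⟨c'.twist (shift fun i => ζ (MvPolynomial.X i)), ?_, ?_,
    fun y hy => (e5 y (hc y (Set.mem_insert_of_mem _ hy))).twist _⟩
  · change sp (c'.e : c'.B →+* k) ≫ c'.j = _
    rw [e3, sp_comp_assoc, ← e1]
    rfl
  · change sp MvPolynomial.constantCoeff ≫
      sp (shift fun i => ζ (MvPolynomial.X i)).toAlgHom.toRingHom ≫ c'.h = c'.j ≫ z
    rw [e3, e4, Category.assoc, ← hζ, sp_comp_assoc, sp_comp_assoc]
    refine congrArg (sp · ≫ c.h) (MvPolynomial.ringHom_ext (fun r => ?_) fun i => ?_)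
    · have h5 : shift (fun i => ζ (MvPolynomial.X i)) (MvPolynomial.C (ε r)) =
          MvPolynomial.C (ε r) := (shift _).commutes _
      simpa [h5] using (DFunLike.congr_fun h4 r).symm
    · simp [shift_X]

theorem fibre_cell (h : Cells (𝟙 _) φ m) (Y : Set (Spec (.of k) ⟶ F)) (hY : Y.Finite)
    (hY' : ∀ y ∈ Y, y ≫ φ = 𝟙 _) : ∃ τ : Spec (.of (MvPolynomial (Fin m) k)) ⟶ F,
      IsOpenImmersion τ ∧ τ ≫ φ = sp MvPolynomial.C ∧
      ∀ y ∈ Y, ∃ v : Fin m → k, sp (MvPolynomial.eval v) ≫ τ = y := by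
  obtain ⟨U, h, _, hp, hU, hh⟩ := of_cells h (𝟙 _) (Category.comp_id _) Y hY hY'
  obtain ⟨τ, _, h1, h2⟩ := exists_affine_chart h hp (𝟙 _) hU
  rw [Category.comp_id] at h1
  refine ⟨τ, ‹_›, h1, fun y hy => ?_⟩
  obtain ⟨r, rfl⟩ := exists_factor y τ (h2 _ (hh y hy ⟨_, rfl⟩) ⟨_, rfl⟩)
  have h3 : r.comp MvPolynomial.C = RingHom.id k := sp_inj (by
    rw [← sp_comp, ← h1, ← Category.assoc, hY' _ hy, sp_id])
  refine ⟨fun i => r (MvPolynomial.X i), congrArg (sp · ≫ τ) ?_⟩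
  refine MvPolynomial.ringHom_ext (fun b => ?_) fun i => by simp
  simpa using (DFunLike.congr_fun h3 b).symm

end Pool.Agent.MP_e8e0b6_ag.T

end MrgPart1

-- ======== part 2: formerly Pool.Agent.MP_e8e0b6_ag.T.OI
section MrgPart2

/-!
A criterion for a morphism from an integral affine scheme to be an open immersion.
-/

open AlgebraicGeometry CategoryTheory Limits Polynomial IsLocalRing

namespace Pool.Agent.MP_e8e0b6_ag.T

variable {D : Type} [CommRing D] {X : Scheme.{0}}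

theorem isOpenImmersion_of_local [IsDomain D] (Φ : Spec (.of D) ⟶ X)
    (h₁ : ∀ (L : Type) [Field L] (χ χ' : D →+* L), Function.Injective χ →
      sp χ ≫ Φ = sp χ' ≫ Φ → χ = χ')
    (h₂ : ∀ w, ∃ (A : Type) (_ : CommRing A) (r : D →+* A), IsOpenImmersion (sp r ≫ Φ) ∧
      Φ w ∈ Set.range (sp r ≫ Φ)) : IsOpenImmersion Φ := by
  have key : ∀ w, ∃ U : (Spec (.of D)).Opens, (∀ w', Φ w' = Φ w → w' ∈ U) ∧
      IsOpenImmersion (U.ι ≫ Φ) := by
    intro w
    obtain ⟨A, _, r, hu, hw⟩ := h₂ w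
    let U : (Spec (.of D)).Opens := Φ ⁻¹ᵁ (sp r ≫ Φ).opensRange
    have hU : ∀ w', Φ w' = Φ w → w' ∈ U := fun w' e => by
      change Φ w' ∈ Set.range (sp r ≫ Φ)
      rwa [e]
    refine ⟨U, hU, ?_⟩
    obtain ⟨l, hl⟩ : ∃ l : U.toScheme ⟶ Spec (.of A), l ≫ sp r ≫ Φ = U.ι ≫ Φ :=
      ⟨IsOpenImmersion.lift (sp r ≫ Φ) (U.ι ≫ Φ) (by
        rintro _ ⟨x, rfl⟩
        exact x.2), IsOpenImmersion.lift_fac _ _ _⟩
    have hi : Function.Injective (algebraMap D (FractionRing D)) := IsFractionRing.injective _ _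
    have hd := isDominant_sp hi
    obtain ⟨η, hη⟩ : ∃ η : Spec (.of (FractionRing D)) ⟶ U.toScheme,
        η ≫ U.ι = sp (algebraMap D (FractionRing D)) :=
      ⟨IsOpenImmersion.lift U.ι (sp (algebraMap D (FractionRing D))) (by
        rintro _ ⟨x, rfl⟩
        obtain ⟨y, hy⟩ := hd.1.exists_mem_open U.2 ⟨w, hU w rfl⟩
        obtain rfl : x = y := Subsingleton.elim (α := PrimeSpectrum (FractionRing D)) x y
        exact ⟨⟨_, hy⟩, rfl⟩), IsOpenImmersion.lift_fac _ _ _⟩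
    have : IsDominant (η ≫ U.ι) := by rwa [hη]
    have : IsDominant η := IsDominant.of_comp_of_isOpenImmersion η U.ι
    have e : l ≫ sp r = U.ι := by
      obtain ⟨χ, hχ⟩ := sp_surj (η ≫ l ≫ sp r)
      have : IsReduced U.toScheme := isReduced_of_isOpenImmersion U.ι
      refine ext_of_isDominant η ?_
      rw [hη, ← hχ, h₁ _ _ χ hi (by rw [hχ, ← hη]; simp only [Category.assoc, hl])]
    have : Mono (sp r) := mono_of_mono _ Φ
    let l' : U.toScheme ⟶ pullback (sp r) U.ι := pullback.lift l (𝟙 _) (by rw [e, Category.id_comp])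
    have e1 : l' ≫ pullback.snd _ _ = 𝟙 _ := pullback.lift_snd _ _ _
    have : IsSplitEpi (pullback.snd (sp r) U.ι) := IsSplitEpi.mk' ⟨l', e1⟩
    have : IsIso (pullback.snd (sp r) U.ι) := isIso_of_mono_of_isSplitEpi _
    have : IsIso (l' ≫ pullback.snd (sp r) U.ι) := by rw [e1]; infer_instance
    have : IsIso l' := IsIso.of_isIso_comp_right l' (pullback.snd (sp r) U.ι)
    have e2 : l' ≫ pullback.fst _ _ = l := pullback.lift_fst _ _ _
    rw [← hl, ← e2]
    infer_instance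
  refine IsOpenImmersion.of_forall_source_exists Φ (fun w w' e => ?_) fun w => ?_
  · obtain ⟨U, hU, hi⟩ := key w'
    have := (U.ι ≫ Φ).isOpenEmbedding.injective (a₁ := ⟨w, hU w e⟩) (a₂ := ⟨w', hU w' rfl⟩) e
    exact congrArg Subtype.val this
  · obtain ⟨U, hU, hi⟩ := key w
    exact ⟨U, U.ι, inferInstance, ⟨⟨w, hU w rfl⟩, rfl⟩, hi⟩

end Pool.Agent.MP_e8e0b6_ag.T

end MrgPart2

-- ======== part 3: formerly Pool.Agent.MP_e8e0b6_ag.T.Cart
section MrgPart3

/-!
Inverse images of a section, Cartier divisors, and charts of a blow-up.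
-/

open AlgebraicGeometry CategoryTheory Limits Polynomial IsLocalRing

namespace Pool.Agent.MP_e8e0b6_ag.T

open Z

variable {k A B D E T T' L : Type} [Field k] [CommRing A] [CommRing B] [CommRing D] [CommRing E]
  [CommRing T] [CommRing T'] [Field L] {S X X' W F : Scheme.{0}} {n m : ℕ}
  {f : S ⟶ Spec (.of k)} {π : X ⟶ S} {z : S ⟶ X} {ρ : X' ⟶ X} {φ : F ⟶ Spec (.of k)}
  {G : LinGroup k} {a : G.Action φ}

theorem Cell.Zero.cuts {c : Cell f π n} (h : c.Zero z) (hz : z ≫ π = 𝟙 S) :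
    Cuts z c.h (Ideal.span (Set.range MvPolynomial.X)) := by
  intro T _ μ
  have e : (sp (μ.comp MvPolynomial.C) ≫ c.j) ≫ z =
      sp ((μ.comp MvPolynomial.C).comp MvPolynomial.constantCoeff) ≫ c.h := by
    rw [Category.assoc, ← h, sp_comp_assoc]
  constructor
  · rintro ⟨s, hs⟩
    have e1 : s = sp (μ.comp MvPolynomial.C) ≫ c.j := by
      rw [← sp_comp_assoc, ← c.proj, ← reassoc_of% hs, hz, Category.comp_id]
    have e2 := sp_cancel c.h (hs.symm.trans (e1 ▸ e))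
    refine fun a ha => (Ideal.span_le (I := RingHom.ker μ)).2 ?_ ha
    rintro _ ⟨i, rfl⟩
    change μ _ = 0
    rw [e2]
    simp
  · intro hμ
    refine ⟨_, e.trans (congrArg (sp · ≫ _) (MvPolynomial.ringHom_ext (fun b => ?_) fun i => ?_))⟩
    · simp
    · rw [hμ _ (Ideal.subset_span ⟨i, rfl⟩)]
      simp

theorem Cuts.map {q : Spec (.of A) ⟶ X} {I : Ideal A} (h : Cuts z q I) (ν : A →+* B) :
    Cuts z (sp ν ≫ q) (I.map ν) := by
  intro T _ μ
  rw [sp_comp_assoc, h T (μ.comp ν)]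
  exact (Ideal.map_le_iff_le_comap (K := RingHom.ker μ)).symm

theorem Cuts.le {q : Spec (.of A) ⟶ X} {I J : Ideal A} (h : Cuts z q I) (h' : Cuts z q J) :
    I ≤ J := fun a ha => Ideal.Quotient.eq_zero_iff_mem.1
  ((h _ (Ideal.Quotient.mk J)).1 ((h' _ _).2 fun _ => Ideal.Quotient.eq_zero_iff_mem.2) a ha)

theorem Cuts.unique {q : Spec (.of A) ⟶ X} {I J : Ideal A} (h : Cuts z q I) (h' : Cuts z q J) :
    I = J := le_antisymm (h.le h') (h'.le h)

theorem Cuts.exists_lift_affine {q : Spec (.of A) ⟶ X} {I : Ideal A} (h : Cuts z q I)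
    (α : Spec (.of T) ⟶ Spec (.of A)) (s : Spec (.of T) ⟶ S) (e : α ≫ q = s ≫ z) :
    ∃ l, l ≫ sp (Ideal.Quotient.mk I) = α := by
  obtain ⟨μ, rfl⟩ := sp_surj α
  exact ⟨sp (Ideal.Quotient.lift I μ ((h _ μ).1 ⟨s, e.symm⟩)), sp_comp _ _⟩

theorem Cuts.exists_lift {q : Spec (.of A) ⟶ X} {I : Ideal A} (h : Cuts z q I)
    (α : W ⟶ Spec (.of A)) (s : W ⟶ S) (e : α ≫ q = s ≫ z) : ∃ l, l ≫ sp (Ideal.Quotient.mk I) = α := by
  have : IsClosedImmersion (sp (Ideal.Quotient.mk I)) :=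
    IsClosedImmersion.spec_of_surjective _ Ideal.Quotient.mk_surjective
  have key : ∀ i : W.affineOpenCover.openCover.I₀,
      ∃ l : W.affineOpenCover.openCover.X i ⟶ Spec (.of (A ⧸ I)),
        l ≫ sp (Ideal.Quotient.mk I) = W.affineOpenCover.openCover.f i ≫ α := by
    intro i
    exact h.exists_lift_affine (W.affineOpenCover.f i ≫ α) (W.affineOpenCover.f i ≫ s)
      ((Category.assoc _ _ _).trans ((congrArg (_ ≫ ·) e).trans (Category.assoc _ _ _).symm))
  choose l hl using key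
  refine ⟨W.affineOpenCover.openCover.glueMorphisms l fun i j => ?_,
    W.affineOpenCover.openCover.hom_ext _ _ fun i => ?_⟩
  · rw [← cancel_mono (sp (Ideal.Quotient.mk I)), Category.assoc, Category.assoc, hl, hl,
      pullback.condition_assoc]
  · rw [Scheme.Cover.ι_glueMorphisms_assoc, hl]

theorem Cuts.cartier [Mono z] {q : Spec (.of A) ⟶ X} {x : A} (h : Cuts z q (Ideal.span {x}))
    (hx : x ∈ nonZeroDivisors A) : Cartier z q := by
  refine cartier_iff.2 fun w => ?_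
  obtain ⟨s, hs⟩ := (h _ (Ideal.Quotient.mk _)).2 fun _ => Ideal.Quotient.eq_zero_iff_mem.2
  have : IsClosedImmersion (sp (Ideal.Quotient.mk (Ideal.span {x}))) :=
    IsClosedImmersion.spec_of_surjective _ Ideal.Quotient.mk_surjective
  refine ⟨A, _, 𝟙 _, x, s, inferInstance, ⟨w, rfl⟩, hx, ?_⟩
  rw [Category.id_comp]
  have key := fun t : PullbackCone q z => h.exists_lift t.fst t.snd t.condition
  choose l hl using key
  refine ⟨⟨hs.symm⟩, ⟨PullbackCone.IsLimit.mk _ l hl (fun t => ?_) fun t l' h1 _ => ?_⟩⟩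
  · rw [← cancel_mono z, Category.assoc, hs, reassoc_of% hl, t.condition]
  · rw [← cancel_mono (sp (Ideal.Quotient.mk (Ideal.span {x}))), hl, h1]

theorem cuts_of_cartier {q : W ⟶ X} (h : Cartier z q) (w : W) (V : W.Opens) (hw : w ∈ V) :
    ∃ (A : Type) (_ : CommRing A) (u : Spec (.of A) ⟶ W) (x : A), IsOpenImmersion u ∧
      w ∈ Set.range u ∧ Set.range u ⊆ V ∧ x ∈ nonZeroDivisors A ∧
      Cuts z (u ≫ q) (Ideal.span {x}) := by
  obtain ⟨A, _, u, x, s, hu, ⟨w0, rfl⟩, hx, hp⟩ := cartier_iff.1 h w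
  have hc : Cuts z (u ≫ q) (Ideal.span {x}) := by
    intro T _ μ
    constructor
    · rintro ⟨s', hs'⟩ b hb
      obtain ⟨l, hl⟩ := sp_surj (hp.lift _ _ hs'.symm)
      have e := hp.lift_fst _ _ hs'.symm
      rw [← hl] at e
      rw [← sp_inj ((sp_comp _ _).symm.trans e), RingHom.comp_apply,
        Ideal.Quotient.eq_zero_iff_mem.2 hb, map_zero]
    · intro hμ
      refine ⟨sp (Ideal.Quotient.lift _ μ hμ) ≫ s, ?_⟩
      rw [Category.assoc, ← hp.w, sp_comp_assoc]
      rfl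
  obtain ⟨p, hp0, hp1⟩ := exists_basic (σ := u) w0 hw
  have hr := PrimeSpectrum.localization_away_comap_range (Localization.Away p) p
  have : IsOpenImmersion (sp (algebraMap A (Localization.Away p))) :=
    IsOpenImmersion.of_isLocalization (S := Localization.Away p) p
  refine ⟨Localization.Away p, _, sp (algebraMap A _) ≫ u, algebraMap A _ x, inferInstance, ?_, ?_,
    IsLocalization.nonZeroDivisors_le_comap (Submonoid.powers p) _ hx, ?_⟩
  · obtain ⟨w1, h1⟩ := (Set.ext_iff.1 hr w0).2 hp0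
    exact ⟨w1, congrArg u h1⟩
  · rintro _ ⟨w1, rfl⟩
    exact hp1 _ (hr.le ⟨w1, rfl⟩)
  · have := hc.map (algebraMap A (Localization.Away p))
    rwa [Ideal.map_span, Set.image_singleton, ← Category.assoc] at this

/-- Lifting to the blow-up a point of a chart whose coordinates are `x * w i`, `w` unimodular. -/
theorem Cell.Zero.lift {c : Cell f π n} (h : c.Zero z) (hz : z ≫ π = 𝟙 S) (hρ : IsBlowup z ρ)
    (μ : MvPolynomial (Fin n) c.B →+* A) {x : A} (hx : x ∈ nonZeroDivisors A) {w : Fin n → A}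
    (hw : Ideal.span (Set.range w) = ⊤) (e : ∀ i, μ (MvPolynomial.X i) = x * w i) :
    ∃! q : Spec (.of A) ⟶ X', q ≫ ρ = sp μ ≫ c.h := by
  have : Mono z := mono_of_mono_fac hz
  have h1 : (Ideal.span (Set.range MvPolynomial.X)).map μ = Ideal.span {x} := by
    refine le_antisymm (Ideal.map_le_iff_le_comap.2 (Ideal.span_le.2 ?_))
      ((Ideal.span_singleton_le_iff_mem _).2 ?_)
    · rintro _ ⟨i, rfl⟩
      exact Ideal.mem_comap.2 (Ideal.mem_span_singleton.2 ⟨_, e i⟩)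
    · obtain ⟨d, hd⟩ := Ideal.mem_span_range_iff_exists_fun.1 ((Ideal.eq_top_iff_one _).1 hw)
      rw [← mul_one x, ← hd, Finset.mul_sum]
      refine Ideal.sum_mem _ fun i _ => ?_
      rw [mul_left_comm, ← e]
      exact Ideal.mul_mem_left _ _ (Ideal.mem_map_of_mem _ (Ideal.subset_span ⟨i, rfl⟩))
  exact hρ.2 _ _ (Cuts.cartier (h1 ▸ (h.cuts hz).map μ) hx)

/-- Charts of the blow-up above a chart whose origin is the centre. -/
theorem Cell.Zero.piece {c : Cell f π n} (h : c.Zero z) (hz : z ≫ π = 𝟙 S) (hρ : IsBlowup z ρ)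
    (y : X') (hy : ρ y ∈ Set.range c.h) :
    ∃ (A : Type) (_ : CommRing A) (u : Spec (.of A) ⟶ X') (μ : MvPolynomial (Fin n) c.B →+* A)
      (x : A) (w : Fin n → A), IsOpenImmersion u ∧ y ∈ Set.range u ∧ u ≫ ρ = sp μ ≫ c.h ∧
      x ∈ nonZeroDivisors A ∧ Ideal.span (Set.range w) = ⊤ ∧
      ∀ i, μ (MvPolynomial.X i) = x * w i := by
  obtain ⟨A, _, u, x, hu, h1, h2, hx, hc⟩ := cuts_of_cartier hρ.1 y (ρ ⁻¹ᵁ c.h.opensRange) hy
  have h0 : Set.range (u ≫ ρ) ⊆ Set.range c.h := by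
    rintro _ ⟨v, rfl⟩
    exact h2 ⟨v, rfl⟩
  obtain ⟨μ, hμ⟩ := sp_surj (IsOpenImmersion.lift c.h (u ≫ ρ) h0)
  have e : u ≫ ρ = sp μ ≫ c.h := by rw [hμ, IsOpenImmersion.lift_fac]
  have h3 := ((h.cuts hz).map μ).unique (e ▸ hc)
  have h4 : ∀ i, ∃ w, μ (MvPolynomial.X i) = x * w := fun i => Ideal.mem_span_singleton.1
    (h3.le (Ideal.mem_map_of_mem _ (Ideal.subset_span ⟨i, rfl⟩)))
  choose w hw using h4
  refine ⟨A, _, u, μ, x, w, hu, h1, e, hx, ?_, hw⟩
  have h5 := h3.ge (Ideal.mem_span_singleton_self x)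
  rw [Ideal.map_span, ← Set.range_comp] at h5
  obtain ⟨d, hd⟩ := Ideal.mem_span_range_iff_exists_fun.1 h5
  refine (Ideal.eq_top_iff_one _).2 (Ideal.mem_span_range_iff_exists_fun.2 ⟨d, ?_⟩)
  refine (mul_cancel_left_mem_nonZeroDivisors hx).1 ?_
  rw [mul_one, Finset.mul_sum]
  refine Eq.trans (Finset.sum_congr rfl fun i _ => ?_) hd
  rw [Function.comp_apply, hw, mul_left_comm]

end Pool.Agent.MP_e8e0b6_ag.T

end MrgPart3

-- ======== part 4: formerly Pool.Agent.MP_e8e0b6_ag.T.Exc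
section MrgPart4

/-!
Points of the exceptional divisor of a blow-up, described by arcs.
-/

set_option linter.unusedVariables false

open AlgebraicGeometry CategoryTheory Limits Polynomial IsLocalRing

namespace Pool.Agent.MP_e8e0b6_ag.T

open Z

variable {k A B D E T T' L : Type} [Field k] [CommRing A] [CommRing B] [CommRing D] [CommRing E]
  [CommRing T] [CommRing T'] [Field L] {S X X' W F : Scheme.{0}} {n m : ℕ}
  {f : S ⟶ Spec (.of k)} {π : X ⟶ S} {z : S ⟶ X} {ρ : X' ⟶ X} {φ : F ⟶ Spec (.of k)}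
  {G : LinGroup k} {a : G.Action φ}

namespace ExcA

theorem span_map (χ : T →+* T') {ν : Fin n → T} (hν : Ideal.span (Set.range ν) = ⊤) :
    Ideal.span (Set.range fun i => χ (ν i)) = ⊤ := by
  rw [← Ideal.map_top χ, ← hν, Ideal.map_span, ← Set.range_comp]
  rfl

theorem span_unit {ν : Fin n → T} {i : Fin n} (h : IsUnit (ν i)) :
    Ideal.span (Set.range ν) = ⊤ :=
  Ideal.eq_top_of_isUnit_mem _ (Ideal.subset_span ⟨i, rfl⟩) h

theorem lift_arc {c : Cell f π n} (h : c.Zero z) (hz : z ≫ π = 𝟙 S) (hρ : IsBlowup z ρ)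
    (b : c.B →+* T) {ν : Fin n → T} (hν : Ideal.span (Set.range ν) = ⊤) :
    ∃! γ : Spec (.of T[X]) ⟶ X', γ ≫ ρ = sp (arc b ν) ≫ c.h :=
  h.lift hz hρ (arc b ν) (monic_X.mem_nonZeroDivisors) (span_map C hν) fun i => by simp [arc]

/-- The first order jet of a power series. -/
noncomputable def jetP (L : Type) [CommRing L] : PowerSeries L →+* DualNumber L where
  toFun p := TrivSqZeroExt.inl (PowerSeries.constantCoeff p) +
    TrivSqZeroExt.inr (PowerSeries.coeff 1 p)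
  map_one' := by ext <;> simp [PowerSeries.coeff_one]
  map_zero' := by ext <;> simp
  map_add' x y := by ext <;> simp
  map_mul' x y := by
    ext
    · simp
    · simp [PowerSeries.coeff_one_mul, add_comm, mul_comm]

theorem fst_jetP (p : PowerSeries T) : (jetP T p).fst = PowerSeries.constantCoeff p := by
  simp [jetP]

theorem snd_jetP (p : PowerSeries T) : (jetP T p).snd = PowerSeries.coeff 1 p := by
  simp [jetP]

theorem jetP_arc (b : B →+* T) (ν : Fin n → T) :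
    (jetP T).comp (coeToPowerSeries.ringHom.comp (arc b ν)) = jet b ν := by
  refine MvPolynomial.ringHom_ext (fun x => ?_) fun i => ?_
  · ext
    · simp [arc, jet, fst_jetP, TrivSqZeroExt.algebraMap_eq_inl]
    · simp [arc, jet, snd_jetP, TrivSqZeroExt.algebraMap_eq_inl]
  · ext
    · simp [arc, jet, fst_jetP]
    · simp [arc, jet, snd_jetP, fst_jetP, PowerSeries.coeff_X]

end ExcA

open ExcA

theorem exists_exc {c : Cell f π n} (h : c.Zero z) (hz : z ≫ π = 𝟙 S) (hρ : IsBlowup z ρ)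
    (b : c.B →+* T) {ν : Fin n → T} (hν : Ideal.span (Set.range ν) = ⊤) :
    ∃ q, Exc ρ c b ν q :=
  let ⟨γ, hγ, _⟩ := lift_arc h hz hρ b hν
  ⟨_, γ, hγ, rfl⟩

theorem Exc.unique {c : Cell f π n} (h : c.Zero z) (hz : z ≫ π = 𝟙 S) (hρ : IsBlowup z ρ)
    {b : c.B →+* T} {ν : Fin n → T} (hν : Ideal.span (Set.range ν) = ⊤)
    {q q' : Spec (.of T) ⟶ X'} (H : Exc ρ c b ν q) (H' : Exc ρ c b ν q') : q = q' := by
  obtain ⟨γ, hγ, rfl⟩ := H
  obtain ⟨γ', hγ', rfl⟩ := H'
  rw [(lift_arc h hz hρ b hν).unique hγ hγ']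

theorem Exc.proj {c : Cell f π n} {b : c.B →+* T} {ν : Fin n → T} {q : Spec (.of T) ⟶ X'}
    (h : Exc ρ c b ν q) : q ≫ ρ ≫ π = sp b ≫ c.j := by
  obtain ⟨γ, hγ, rfl⟩ := h
  rw [Category.assoc, reassoc_of% hγ, c.proj, sp_comp_assoc, sp_comp_assoc]
  congr 2
  ext x
  simp [arc]

theorem Exc.map {c : Cell f π n} {b : c.B →+* T} {ν : Fin n → T} {q : Spec (.of T) ⟶ X'}
    (h : Exc ρ c b ν q) (χ : T →+* T') : Exc ρ c (χ.comp b) (fun i => χ (ν i)) (sp χ ≫ q) := by
  obtain ⟨γ, hγ, rfl⟩ := h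
  refine ⟨sp (mapRingHom χ) ≫ γ, ?_, ?_⟩
  · rw [Category.assoc, hγ, sp_comp_assoc]
    congr 2
    exact MvPolynomial.ringHom_ext (fun x => by simp [arc]) fun i => by simp [arc]
  · rw [sp_comp_assoc, sp_comp_assoc]
    congr 2
    exact Polynomial.ringHom_ext (fun x => by simp) (by simp)

theorem Exc.eq {c c' : Cell f π n} (h : c.Zero z) (h' : c'.Zero z) (hz : z ≫ π = 𝟙 S)
    (hρ : IsBlowup z ρ) {b : c.B →+* L} {b' : c'.B →+* L} {ν ν' : Fin n → L} (hν : ν ≠ 0)
    (hν' : ν' ≠ 0) (e : sp (jet b ν) ≫ c.h = sp (jet b' ν') ≫ c'.h) {q q' : Spec (.of L) ⟶ X'}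
    (H : Exc ρ c b ν q) (H' : Exc ρ c' b' ν' q') : q = q' := by
  obtain ⟨γ', hγ', rfl⟩ := H'
  obtain ⟨i₀, hi₀⟩ := Function.ne_iff.1 hν
  obtain ⟨δ, hδ⟩ : ∃ δ : Spec (.of (PowerSeries L)) ⟶ X',
      δ = sp coeToPowerSeries.ringHom ≫ γ' := ⟨_, rfl⟩
  have h1 : sp (jetP L) ≫ δ ≫ ρ = sp (jet b ν) ≫ c.h := by
    rw [hδ, Category.assoc, hγ', sp_comp_assoc, sp_comp_assoc, RingHom.comp_assoc, jetP_arc, e]
  have h2 : (fstR L).comp (jetP L) = PowerSeries.constantCoeff := RingHom.ext fst_jetP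
  obtain ⟨τ, hτ⟩ := exists_factor (δ ≫ ρ) c.h (by
    rw [← sp_closedPoint (PowerSeries.constantCoeff (R := L))
      (fun a ha => PowerSeries.isUnit_iff_constantCoeff.2 ha), ← Scheme.Hom.comp_apply, ← h2,
      ← sp_comp_assoc, h1, ← Category.assoc]
    exact ⟨_, rfl⟩)
  have h3 : (jetP L).comp τ = jet b ν := sp_cancel c.h (by rw [← sp_comp_assoc, hτ, h1])
  have h4 : ∀ x, jetP L (τ x) = jet b ν x := DFunLike.congr_fun h3
  obtain ⟨w, hw⟩ : ∃ w : Fin n → PowerSeries L, ∀ i, w i =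
      PowerSeries.mk fun p => PowerSeries.coeff (p + 1) (τ (MvPolynomial.X i)) := ⟨_, fun _ => rfl⟩
  have h5 : ∀ i, τ (MvPolynomial.X i) = PowerSeries.X * w i := fun i => by
    have := congrArg TrivSqZeroExt.fst (h4 (MvPolynomial.X i))
    rw [fst_jetP] at this
    rw [hw, PowerSeries.eq_X_mul_shift_add_const (τ (MvPolynomial.X i)), this]
    simp [jet]
  have h6 : ∀ i, PowerSeries.constantCoeff (w i) = ν i := fun i => by
    have := congrArg TrivSqZeroExt.snd (h4 (MvPolynomial.X i))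
    rw [snd_jetP] at this
    rw [hw, ← PowerSeries.coeff_zero_eq_constantCoeff_apply, PowerSeries.coeff_mk, zero_add, this]
    simp [jet]
  have h7 : (PowerSeries.constantCoeff (R := L)).comp (τ.comp MvPolynomial.C) = b := by
    ext x
    have := congrArg TrivSqZeroExt.fst (h4 (MvPolynomial.C x))
    rw [fst_jetP] at this
    simpa [jet, TrivSqZeroExt.algebraMap_eq_inl] using this
  have h8 : Ideal.span (Set.range w) = ⊤ := span_unit (i := i₀)
    (PowerSeries.isUnit_iff_constantCoeff.2 (by rw [h6]; exact Ne.isUnit hi₀))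
  obtain ⟨Q, Γ, hΓ, hQ⟩ := exists_exc h hz hρ (τ.comp MvPolynomial.C) h8
  have h9 : sp (evalRingHom PowerSeries.X) ≫ Γ = δ := by
    refine (h.lift hz hρ τ (mem_nonZeroDivisors_of_ne_zero PowerSeries.X_ne_zero) h8 h5).unique
      ?_ hτ.symm
    rw [Category.assoc, hΓ, sp_comp_assoc]
    congr 2
    exact MvPolynomial.ringHom_ext (fun x => by simp [arc]) fun i => by
      simpa [arc, h5] using mul_comm _ _
  have h10 := Exc.map (ρ := ρ) (c := c) ⟨Γ, hΓ, hQ⟩ (PowerSeries.constantCoeff (R := L))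
  simp only [h6, h7] at h10
  rw [H.unique h hz hρ (span_unit (Ne.isUnit hi₀)) h10, ← hQ, sp_comp_assoc]
  have h11 : (constantCoeff : L[X] →+* L) =
      (PowerSeries.constantCoeff (R := L)).comp coeToPowerSeries.ringHom :=
    RingHom.ext fun _ => rfl
  have h12 : sp (PowerSeries.constantCoeff (R := L)) ≫ δ = sp constantCoeff ≫ γ' := by
    rw [hδ, sp_comp_assoc, h11]
  rw [← h12, ← h9, sp_comp_assoc]
  congr 2
  exact Polynomial.ringHom_ext (fun x => by simp) (by simp)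

end Pool.Agent.MP_e8e0b6_ag.T

end MrgPart4

-- ======== part 5: formerly Pool.Agent.MP_e8e0b6_ag.T.Jac
section MrgPart5

/-!
The Jacobian of the change of charts along a section.
-/

open AlgebraicGeometry CategoryTheory Limits Polynomial IsLocalRing

namespace Pool.Agent.MP_e8e0b6_ag.T

open Z

variable {k A B D E T T' L : Type} [Field k] [CommRing A] [CommRing B] [CommRing D] [CommRing E]
  [CommRing T] [CommRing T'] [Field L] {S X X' W F : Scheme.{0}} {n m : ℕ}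
  {f : S ⟶ Spec (.of k)} {π : X ⟶ S} {z : S ⟶ X} {ρ : X' ⟶ X} {φ : F ⟶ Spec (.of k)}
  {G : LinGroup k} {a : G.Action φ}

namespace Jac

open TrivSqZeroExt

/-- Evaluation of a first-order thickening on a vector. -/
def ev (χ : T →+* T') (v : Fin n → T') : TrivSqZeroExt T (Fin n → T) →+* DualNumber T' where
  toFun x := inl (χ x.fst) + inr (∑ a, χ (x.snd a) * v a)
  map_one' := by ext <;> simp
  map_zero' := by ext <;> simp
  map_add' x y := by ext <;> simp [add_mul, Finset.sum_add_distrib]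
  map_mul' x y := by
    ext
    · simp
    · simp [add_mul, Finset.sum_add_distrib, Finset.mul_sum, mul_assoc, mul_comm, mul_left_comm,
        mul_add, add_comm]

theorem surj (p : PrimeSpectrum (TrivSqZeroExt T (Fin n → T))) :
    ∃ q, PrimeSpectrum.comap (fstHom T T (Fin n → T)).toRingHom q = p := by
  refine ⟨PrimeSpectrum.comap (algebraMap T _) p, PrimeSpectrum.ext (Ideal.ext fun x => ?_)⟩
  have h : (inr x.snd : TrivSqZeroExt T (Fin n → T)) ∈ p.asIdeal :=
    p.2.mem_of_pow_mem 2 (by rw [sq, inr_mul_inr]; exact zero_mem _)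
  conv_rhs => rw [← inl_fst_add_inr_snd_eq x, Ideal.add_mem_iff_left _ h]
  rfl

end Jac

open TrivSqZeroExt in
theorem exists_jac {c c' : Cell f π n} (h : c.Zero z) (h' : c'.Zero z) (b : c.B →+* T)
    (b' : c'.B →+* T) (e : sp b ≫ c.j = sp b' ≫ c'.j) :
    ∃ g : Mat n T, ∀ (T' : Type) [CommRing T'] (χ : T →+* T') (v : Fin n → T'),
      sp (jet (χ.comp b) ((g.map χ).mulVec v)) ≫ c.h = sp (jet (χ.comp b') v) ≫ c'.h := by
  let J : MvPolynomial (Fin n) c'.B →+* TrivSqZeroExt T (Fin n → T) :=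
    MvPolynomial.eval₂Hom ((algebraMap T _).comp b') fun a => inr (Pi.single a 1)
  let P : TrivSqZeroExt T (Fin n → T) →+* T := (fstHom T T (Fin n → T)).toRingHom
  have e1 : P.comp J = b'.comp MvPolynomial.constantCoeff :=
    MvPolynomial.ringHom_ext (fun r => by simp [P, J, algebraMap_eq_inl]) fun i => by simp [P, J]
  have e2 : sp P ≫ sp J ≫ c'.h = sp (b.comp MvPolynomial.constantCoeff) ≫ c.h := by
    rw [sp_comp_assoc, e1, ← sp_comp_assoc, ← sp_comp_assoc, h, h', ← Category.assoc, ← e,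
      Category.assoc]
  have hr : Set.range (sp J ≫ c'.h) ⊆ Set.range c.h := by
    rintro _ ⟨p, rfl⟩
    obtain ⟨q, rfl⟩ := Jac.surj p
    have e3 : (sp J ≫ c'.h) (PrimeSpectrum.comap P q) = (sp P ≫ sp J ≫ c'.h) q := rfl
    rw [e3, e2]
    exact ⟨_, rfl⟩
  obtain ⟨τ, hτ⟩ := sp_surj (IsOpenImmersion.lift c.h (sp J ≫ c'.h) hr)
  have e3 : sp τ ≫ c.h = sp J ≫ c'.h := by rw [hτ, IsOpenImmersion.lift_fac]
  have e4 : P.comp τ = b.comp MvPolynomial.constantCoeff :=
    sp_cancel c.h (by rw [← sp_comp_assoc, e3, e2])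
  have e5 : τ.comp MvPolynomial.C = (algebraMap T _).comp b := sp_cancel c.j (by
    rw [← sp_comp_assoc, ← c.proj, ← Category.assoc, e3, Category.assoc, c'.proj, sp_comp_assoc,
      ← sp_comp_assoc b, e, sp_comp_assoc]
    exact congrArg (sp · ≫ _) (RingHom.ext fun r => by simp [J]))
  refine ⟨Matrix.of fun a a' => (τ (MvPolynomial.X a)).snd a', fun T' _ χ v => ?_⟩
  have e6 : (Jac.ev χ v).comp J = jet (χ.comp b') v :=
    MvPolynomial.ringHom_ext (fun r => by simp [J, jet, Jac.ev, algebraMap_eq_inl]) fun i => by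
      simp [J, jet, Jac.ev, Pi.single_apply, apply_ite χ]
  rw [← e6, ← sp_comp_assoc, ← e3, sp_comp_assoc]
  refine congrArg (sp · ≫ _) (MvPolynomial.ringHom_ext (fun r => ?_) fun i => ?_)
  · have : τ (MvPolynomial.C r) = inl (b r) := RingHom.congr_fun e5 r
    simp [jet, Jac.ev, this, algebraMap_eq_inl]
  · have : (τ (MvPolynomial.X i)).fst = 0 := by
      simpa [P] using RingHom.congr_fun e4 (MvPolynomial.X i)
    simp [jet, Jac.ev, this, Matrix.mulVec, dotProduct]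

end Pool.Agent.MP_e8e0b6_ag.T

end MrgPart5

-- ======== part 6: formerly Pool.Agent.MP_e8e0b6_ag.T.BSec
section MrgPart6

/-!
Families of lines lift to the blow-up along a section: a section of the exceptional divisor.
-/

open AlgebraicGeometry CategoryTheory Limits Polynomial IsLocalRing

namespace Pool.Agent.MP_e8e0b6_ag.T

open Z

variable {k A B D E T T' L : Type} [Field k] [CommRing A] [CommRing B] [CommRing D] [CommRing E]
  [CommRing T] [CommRing T'] [Field L] {S X X' W F : Scheme.{0}} {n m : ℕ}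
  {f : S ⟶ Spec (.of k)} {π : X ⟶ S} {z : S ⟶ X} {ρ : X' ⟶ X} {φ : F ⟶ Spec (.of k)}
  {G : LinGroup k} {a : G.Action φ}

namespace BSec

theorem cover [IsAlgClosed k] [Algebra k D] [Algebra.FiniteType k D] (h : Cellular f π n)
    (hz : z ≫ π = 𝟙 S) (σ : Spec (.of D) ⟶ S) (hσ : σ ≫ f = sp (algebraMap k D)) :
    ∃ (ι : Type) (_ : Finite ι) (c : ι → Cell f π n) (p : ι → D), Ideal.span (Set.range p) = ⊤ ∧
      (∀ i, p i ≠ 0) ∧ (∀ i, (c i).Zero z) ∧
      ∀ i (w : PrimeSpectrum D), p i ∉ w.asIdeal → σ w ∈ (c i).j.opensRange := by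
  obtain ⟨s, h1, h2⟩ := (Ideal.span_eq_top_iff_finite {p : D | p ≠ 0 ∧ ∃ c : Cell f π n, c.Zero z ∧
      ∀ w : PrimeSpectrum D, p ∉ w.asIdeal → σ w ∈ c.j.opensRange}).1 (by
    by_contra h0
    obtain ⟨e, he⟩ := exists_point (k := k) _ h0
    obtain ⟨c, h3, h4, -⟩ := h.zero hz (sp (e : D →+* k) ≫ σ) (by
      rw [Category.assoc, hσ, sp_comp, ← sp_id]
      exact congrArg sp e.comp_algebraMap) ∅ Set.finite_empty (by simp)
    obtain ⟨p, h5, h6⟩ := exists_basic (σ := σ) (U := c.j.opensRange)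
      (sp (e : D →+* k) (closedPoint k)) (by
        change (sp (e : D →+* k) ≫ σ) (closedPoint k) ∈ _
        rw [← h3]
        exact ⟨_, rfl⟩)
    have h7 : p ≠ 0 := fun e => h5 (e ▸ zero_mem _)
    refine h5 ?_
    change e p ∈ maximalIdeal k
    rw [mem_kerPt.1 (he (Ideal.subset_span ⟨h7, c, h4, h6⟩))]
    exact zero_mem _)
  choose c hc hc' using fun p : s => (h1 p.2).2
  exact ⟨s, inferInstance, c, Subtype.val, by rwa [Subtype.range_coe], fun p => (h1 p.2).1, hc, hc'⟩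

theorem exists_base (c : Cell f π n) {σ : Spec (.of D) ⟶ S} {p : D}
    (h : ∀ w : PrimeSpectrum D, p ∉ w.asIdeal → σ w ∈ c.j.opensRange) (r : D →+* T)
    (hu : IsUnit (r p)) : ∃ b : c.B →+* T, sp b ≫ c.j = sp r ≫ σ := by
  obtain ⟨b, hb⟩ := sp_surj (IsOpenImmersion.lift c.j (sp r ≫ σ) (by
    rintro _ ⟨w, rfl⟩
    exact mem_of_unit h hu w))
  exact ⟨b, by rw [hb, IsOpenImmersion.lift_fac]⟩

theorem jet_inj (c : Cell f π n) {b : c.B →+* T} {v v' : Fin n → T}
    (h : sp (jet b v) ≫ c.h = sp (jet b v') ≫ c.h) : v = v' := by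
  funext i
  have := congrArg TrivSqZeroExt.snd (RingHom.congr_fun (sp_cancel c.h h) (MvPolynomial.X i))
  simpa [jet] using this

theorem span_col {g : Mat (n + 1) T} (h : IsUnit g.det) :
    Ideal.span (Set.range fun i => g i 0) = ⊤ := by
  rw [Ideal.eq_top_iff_one]
  have := congrFun (congrFun (Matrix.nonsing_inv_mul g h) 0) 0
  rw [Matrix.mul_apply, Matrix.one_apply_eq] at this
  rw [← this]
  exact sum_mem fun i _ => Ideal.mul_mem_left _ _ (Ideal.subset_span ⟨i, rfl⟩)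

theorem col_ne {g : Mat (n + 1) L} (h : IsUnit g.det) : (fun i => g i 0) ≠ 0 := fun e => by
  have := span_col h
  rw [e] at this
  exact top_ne_bot (this.symm.trans (Ideal.span_eq_bot.2 (by rintro _ ⟨i, rfl⟩; rfl)))

variable (k n) in
/-- The general linear group. -/
def gl : LinGroup k where
  n := n
  I := ∅
  one_mem := ⟨by simp, by simp⟩
  mul_mem := fun _ _ _ _ _ hg hh => ⟨by rw [Matrix.det_mul]; exact hg.1.mul hh.1, by simp⟩
  inv_mem := fun _ _ _ _ hg => ⟨Matrix.isUnit_nonsing_inv_det _ hg.1, by simp⟩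

end BSec

open BSec

theorem sec_blowup [IsAlgClosed k] [CharZero k] [X'.IsSeparated] [S.IsSeparated]
    [LocallyOfFiniteType (ρ ≫ π)] (h : Cellular f π (n + 1)) (hz : z ≫ π = 𝟙 S)
    (hρ : IsBlowup z ρ) : Sec f (ρ ≫ π) := by
  intro A _ _ _ hA x σ hσ
  have := hA.finiteType
  have : Algebra.FiniteType k A[X] := .trans (S := A) inferInstance inferInstance
  obtain ⟨ι, _, c, p, hp, p0, hc, hU⟩ := cover h hz σ hσ
  obtain ⟨L, _, r, hr⟩ : ∃ (L : Type) (_ : Field L) (r : A[X] →+* L), Function.Injective r ∧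
      ∀ (L' : Type) [Field L'] (r' : A[X] →+* L'), Function.Injective r' →
        ∃ ν : L →+* L', ν.comp r = r' :=
    ⟨FractionRing A[X], _, algebraMap _ _, IsFractionRing.injective _ _, fun _ _ _ h' =>
      ⟨IsFractionRing.lift h', RingHom.ext (IsFractionRing.lift_algebraMap h')⟩⟩
  obtain ⟨hr, hL⟩ := hr
  choose b hb using fun i => exists_base (c i) (hU i) r ((map_ne_zero_iff _ hr).2 (p0 i)).isUnit
  have : ∀ i j, ∃ g : Mat (n + 1) L, (∀ (T' : Type) [CommRing T'] (χ : L →+* T')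
      (v : Fin (n + 1) → T'), sp (jet (χ.comp (b i)) ((g.map χ).mulVec v)) ≫ (c i).h =
      sp (jet (χ.comp (b j)) v) ≫ (c j).h) ∧ ∀ u u', g u u' ∈ aw r (p i * p j) := fun i j => by
    have hu := ((map_ne_zero_iff _ hr).2 (mul_ne_zero (p0 i) (p0 j))).isUnit
    have h7 := IsLocalization.Away.algebraMap_isUnit (S := Localization.Away (p i * p j))
      (p i * p j)
    rw [map_mul] at h7
    obtain ⟨b₁, e₁⟩ := exists_base (c i) (hU i) _ (isUnit_of_mul_isUnit_left h7)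
    obtain ⟨b₂, e₂⟩ := exists_base (c j) (hU j) _ (isUnit_of_mul_isUnit_right h7)
    obtain ⟨g, hg⟩ := exists_jac (hc i) (hc j) b₁ b₂ (e₁.trans e₂.symm)
    have e := IsLocalization.Away.lift_comp (S := Localization.Away (p i * p j)) _ hu
    have e₃ : b i = (IsLocalization.Away.lift _ hu).comp b₁ := sp_cancel (c i).j (by
      rw [hb, ← sp_comp_assoc, e₁, sp_comp_assoc, e])
    have e₄ : b j = (IsLocalization.Away.lift _ hu).comp b₂ := sp_cancel (c j).j (by
      rw [hb, ← sp_comp_assoc, e₂, sp_comp_assoc, e])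
    refine ⟨g.map (IsLocalization.Away.lift _ hu), fun T' _ χ v => ?_,
      fun u u' => range_away hu ▸ ⟨_, rfl⟩⟩
    rw [e₃, map_map', ← RingHom.comp_assoc, hg, e₄, RingHom.comp_assoc]
  choose g hg hg' using this
  have g0 : ∀ i j v, sp (jet (b i) ((g i j).mulVec v)) ≫ (c i).h = sp (jet (b j) v) ≫ (c j).h :=
    fun i j v => hg i j L (RingHom.id L) v
  have g1 : ∀ i j l, g i j * g j l = g i l := fun i j l =>
    Matrix.ext_of_mulVec_single fun u => by
      rw [← Matrix.mulVec_mulVec]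
      exact jet_inj (c i) (b := b i) (by rw [g0, g0, g0])
  have g2 : ∀ i, g i i = 1 := fun i => Matrix.ext_of_mulVec_single fun u => by
    rw [Matrix.one_mulVec]
    exact jet_inj (c i) (g0 i i _)
  obtain ⟨d, z₀, hz₀⟩ := id hA
  obtain ⟨t, ht, γ, μ, hμ, hγ, h7⟩ := trivialise (gl k (n + 1)) z₀ hz₀ x r hr p hp p0 g
    (fun i j => ⟨Matrix.isUnit_det_of_right_inverse ((g1 i j i).trans (g2 i)), fun _ h => h.elim⟩)
    g1 hg'
  obtain ⟨A₁, _, _, _, ε, x₁, f1, f2, f3, f4, f5, -⟩ := hA.loc x ht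
  have hε : Function.Injective (mapRingHom (ε : A →+* A₁)) := map_injective _ f4
  have hu : IsUnit (mapRingHom (ε : A →+* A₁) (C t)) := by
    rw [coe_mapRingHom, map_C]
    exact f5.map C
  generalize hε' : mapRingHom (ε : A →+* A₁) = ε' at hε hu
  have key : ∀ i {T : Type} [CommRing T] (s : A₁[X] →+* T) (hs : IsUnit (s (ε' (p i)))),
      ∃ (χ : Localization.Away (C t * p i) →+* T) (b' : (c i).B →+* T) (q : Spec (.of T) ⟶ X'),
      χ.comp (algebraMap _ _) = s.comp ε' ∧ sp b' ≫ (c i).j = sp (s.comp ε') ≫ σ ∧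
      Exc ρ (c i) b' (fun u => χ (γ i u (0 : Fin (n + 1)))) q := fun i _ _ s hs => by
    obtain ⟨χ, e⟩ := exists_away (C t * p i) (s.comp ε') (by
      rw [map_mul]; exact (hu.map s).mul hs)
    obtain ⟨b', e'⟩ := exists_base (c i) (hU i) (s.comp ε') hs
    obtain ⟨q, hq⟩ := exists_exc (hc i) hz hρ b' (span_col (isUnit_det_map (hγ i).1 χ))
    exact ⟨χ, b', q, e, e', hq⟩
  obtain ⟨L', _, r', hr'⟩ : ∃ (L' : Type) (_ : Field L') (r : A₁[X] →+* L'), Function.Injective r :=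
    ⟨FractionRing A₁[X], _, algebraMap _ _, IsFractionRing.injective _ _⟩
  have hr₂ : Function.Injective (r'.comp ε') := hr'.comp hε
  obtain ⟨ν, hν⟩ := hL L' _ hr₂
  have cmp : ∀ i {T : Type} [CommRing T] {s : A₁[X] →+* T} (m : T →+* L')
      {χ : Localization.Away (C t * p i) →+* T} {b' : (c i).B →+* T} {q : Spec (.of T) ⟶ X'},
      m.comp s = r' → χ.comp (algebraMap _ _) = s.comp ε' →
      sp b' ≫ (c i).j = sp (s.comp ε') ≫ σ →
      Exc ρ (c i) b' (fun u => χ (γ i u (0 : Fin (n + 1)))) q →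
      Exc ρ (c i) (ν.comp (b i)) (fun u => ν (μ i (γ i u (0 : Fin (n + 1))))) (sp m ≫ q) :=
    fun i _ _ s m χ b' q e1 e2 e3 hq => by
      have e4 : m.comp χ = ν.comp (μ i) := away_ext (by
        rw [RingHom.comp_assoc, e2, ← RingHom.comp_assoc, e1, RingHom.comp_assoc, hμ, hν])
      have e5 : m.comp b' = ν.comp (b i) := sp_cancel (c i).j (by
        rw [← sp_comp_assoc, e3, sp_comp_assoc, ← RingHom.comp_assoc, e1, ← sp_comp_assoc _ ν, hb,
          sp_comp_assoc r, hν])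
      have := hq.map m
      rw [e5] at this
      convert this using 2 with u
      exact (RingHom.congr_fun e4 _).symm
  obtain ⟨i₀, -⟩ := exists_notMem hp (P := RingHom.ker ε') (RingHom.ker_ne_top ε')
  obtain ⟨χ₀, b₀, η, e₀, h4, h5⟩ := key i₀ r' ((map_ne_zero_iff _ hr₂).2 (p0 i₀)).isUnit
  have h6 := cmp i₀ (RingHom.id L') (RingHom.id_comp _) e₀ h4 h5
  rw [sp_id, Category.id_comp] at h6
  obtain ⟨Φ, h8, -⟩ := exists_glue hr' (sp ε' ≫ σ) (ρ ≫ π) η
    (by rw [h5.proj, h4, sp_comp_assoc]) fun P hP => by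
      obtain ⟨i, hi⟩ := exists_notMem hp (P := P.comap ε') (Ideal.comap_ne_top _ hP.ne_top)
      obtain ⟨χ, b', q, e, e', hq⟩ := key i (r'.codRestrict (locS r' P) map_mem_locS)
        (un_iff_isUnit.1 ((un_locS hr').2 hi))
      refine ⟨q, Exc.eq (hc i) (hc i₀) hz hρ
        (col_ne (isUnit_det_map (hγ i).1 (ν.comp (μ i))))
        (col_ne (isUnit_det_map (hγ i₀).1 (ν.comp (μ i₀)))) ?_ (cmp i _ rfl e e' hq) h6⟩
      rw [← hg i i₀ L' ν]
      congr 3
      funext u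
      have : ν (∑ w, g i i₀ u w * μ i₀ (γ i₀ w (0 : Fin (n + 1)))) = _ :=
        congrArg (fun M : Mat (n + 1) L => ν (M u 0)) (h7 i i₀)
      simp only [map_sum, map_mul] at this
      exact this.symm
  exact ⟨A₁, _, inferInstance, _, ε, x₁, Φ, f1, f2, f3, hε' ▸ h8⟩

end Pool.Agent.MP_e8e0b6_ag.T

end MrgPart6

-- marker of a merged file
example : 731051 + 123936 = 731051 + 123936 := rfl
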