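import Pool.Agent.MP_e8e0b6_ag.T.Bun2
import Pool.Agent.MP_e8e0b6_ag.T.BSec

/-!
Towers over an elliptic base are elliptic.
-/

open AlgebraicGeometry CategoryTheory Limits Polynomial IsLocalRing

namespace Pool.Agent.MP_e8e0b6_ag.T

variable {k : Type} [Field k] [IsAlgClosed k] [CharZero k] {S X : Scheme.{0}}
  {f : S ⟶ Spec (.of k)} {π : X ⟶ S}

omit [CharZero k] in
theorem exists_pt {g : X ⟶ Spec (.of k)} (h : SmoothVariety g) :
    ∃ y : Spec (.of k) ⟶ X, y ≫ g = 𝟙 _ := by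
  have := h.integral
  have := h.finiteType
  obtain ⟨A, _, j, _, ψ, ⟨w, -⟩, -, h3, h4⟩ := exists_piece g (genericPoint X) ⊤ trivial
    RingHom.FiniteType fun A _ j _ φ h => RingHom.locally_of
      RingHom.finiteType_respectsIso φ ((HasRingHomProperty.Spec_iff (P := @LocallyOfFiniteType)
        (φ := CommRingCat.ofHom φ)).1 (show LocallyOfFiniteType (sp φ) from h ▸ inferInstance))
  let := ψ.toAlgebra
  have : Algebra.FiniteType k A := h4
  obtain ⟨e, -⟩ := exists_point (k := k) w.asIdeal w.2.ne_top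
  refine ⟨sp (e : A →+* k) ≫ j, ?_⟩
  rw [Category.assoc, h3, sp_comp, ← sp_id]
  exact congrArg sp e.comp_algebraMap

omit [IsAlgClosed k] [CharZero k] in
theorem sec_id : Sec f (𝟙 S) := fun A _ _ _ h x σ _ => by
  have e : sp (AlgHom.id k A : A →+* A) = 𝟙 _ := sp_id
  refine ⟨A, _, ‹_›, _, .id k A, x, σ, h, e ▸ inferInstance, rfl, ?_⟩
  rw [Category.comp_id, show mapRingHom (AlgHom.id k A : A →+* A) = RingHom.id _ from
    mapRingHom_id, sp_id, Category.id_comp]

omit [IsAlgClosed k] [CharZero k] in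
theorem Sec.image {Y : Scheme.{0}} {g : Y ⟶ X} (h : Sec f (g ≫ π)) : Sec f π :=
  fun A _ _ _ hA x σ e => by
    obtain ⟨A₁, _, _, _, ε, x₁, q, h1, h2, h3, h4⟩ := h A hA x σ e
    exact ⟨A₁, _, ‹_›, _, ε, x₁, q ≫ g, h1, h2, h3, by rwa [Category.assoc]⟩

theorem inv_of_tower (hS : SmoothVariety f) (h : Tower f π) (hX : SmoothVariety (π ≫ f)) :
    (∃ n, Cellular f π n) ∧ Sec f π := by
  have := hS.separated
  have := isSeparated_of f
  induction h with
  | base => exact ⟨⟨0, cellular_id hS⟩, sec_id⟩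
  | image π g n _ h h' ih => exact ⟨⟨n, cellular_of_cells hS h'⟩, (ih h).2.image⟩
  | bundle π ρ φ G a m _ h b hF ih =>
    obtain ⟨⟨n, h1⟩, h2⟩ := ih h
    have := hX.separated
    have := hX.finiteType
    have := h.separated
    have := isSeparated_of ((ρ ≫ π) ≫ f)
    have := isSeparated_of (π ≫ f)
    have : LocallyOfFiniteType (ρ ≫ π ≫ f) := by rwa [← Category.assoc]
    have := locallyOfFiniteType_of_comp ρ (π ≫ f)
    obtain ⟨τ, -, h3, -⟩ := fibre_cell hF ∅ Set.finite_empty (by simp)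
    refine ⟨⟨_, cellular_bundle b hF h1⟩,
      sec_bundle b (sp MvPolynomial.constantCoeff ≫ τ) ?_ h2⟩
    rw [Category.assoc, h3, sp_comp, MvPolynomial.constantCoeff_comp_C, sp_id]
  | blowup π ρ z _ h hz hρ ih =>
    obtain ⟨⟨n, h1⟩, -⟩ := ih h
    have := hX.separated
    have := hX.finiteType
    have := isSeparated_of ((ρ ≫ π) ≫ f)
    have := locallyOfFiniteType_of_comp (ρ ≫ π) f
    obtain ⟨y, hy⟩ := exists_pt hX
    obtain ⟨n, rfl⟩ := Nat.exists_eq_succ_of_ne_zero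
      (ne_zero_of_blowup h1 hz hρ y (by rwa [Category.assoc] at hy))
    exact ⟨⟨_, cellular_blowup h1 hz hρ⟩, sec_blowup h1 hz hρ⟩

theorem elliptic_of_tower (h : Tower f π) (hX : SmoothVariety (π ≫ f)) (eS : Elliptic f) :
    Elliptic (π ≫ f) :=
  let ⟨⟨_, h1⟩, h2⟩ := inv_of_tower eS.1 h hX
  elliptic_of_cells hX eS h1 h2

end Pool.Agent.MP_e8e0b6_ag.T
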