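import Pool.Agent.MP_e8e0b6_ag.T.BSec

-- ======== part 0: formerly Pool.Agent.MP_e8e0b6_ag.T.Loc
section MrgPart0

/-!
Localisation along a section: after rescaling the line, a family of lines extends over `p = 0`.
-/

open AlgebraicGeometry CategoryTheory Limits Polynomial IsLocalRing Filter

namespace Pool.Agent.MP_e8e0b6_ag.T

open Z

variable {A B D E L : Type} [CommRing A] [CommRing B] [CommRing D] [CommRing E] [Field L]
  {X : Scheme.{0}}

namespace LocA

theorem chart (g : X ⟶ Spec (.of A)) [LocallyOfFiniteType g] (x : X) :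
    ∃ (B : Type) (_ : CommRing B) (u : Spec (.of B) ⟶ X) (_ : IsOpenImmersion u) (α : A →+* B),
      x ∈ Set.range u ∧ u ≫ g = sp α ∧ α.FiniteType := by
  obtain ⟨B, _, u, _, α, h1, -, h2, h3⟩ := exists_piece g x ⊤ trivial RingHom.FiniteType
    fun B _ j _ α e => RingHom.locally_of RingHom.finiteType_respectsIso α
      ((HasRingHomProperty.Spec_iff (P := @LocallyOfFiniteType) (φ := CommRingCat.ofHom α)).1
        (show LocallyOfFiniteType (sp α) from e ▸ inferInstance))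
  exact ⟨B, _, u, inferInstance, α, h1, h2, h3⟩

theorem factor (u : Spec (.of B) ⟶ X) [IsOpenImmersion u] {σ : Spec (.of D) ⟶ X} {d : D}
    (h : ∀ w : PrimeSpectrum D, d ∉ w.asIdeal → σ w ∈ u.opensRange) :
    ∃ κ : B →+* Localization.Away d, sp κ ≫ u = sp (algebraMap D _) ≫ σ := by
  obtain ⟨κ, e⟩ := sp_surj (IsOpenImmersion.lift u (sp (algebraMap D (Localization.Away d)) ≫ σ)
    (by rintro _ ⟨w, rfl⟩; exact mem_of_unit h (IsLocalization.Away.algebraMap_isUnit d) w))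
  exact ⟨κ, (congrArg (· ≫ u) e).trans (IsOpenImmersion.lift_fac _ _ _)⟩

theorem tube {Φ : Spec (.of E[X]) ⟶ X} {U : X.Opens} {t : E}
    (h : ∀ w : PrimeSpectrum E, t ∉ w.asIdeal → (sp constantCoeff ≫ Φ) w ∈ U) :
    ∃ (N : ℕ) (d : E[X]), d.coeff 0 = t ^ N ∧ ∀ w : PrimeSpectrum E[X], d ∉ w.asIdeal → Φ w ∈ U := by
  let Z : Set (PrimeSpectrum E[X]) := (Φ ⁻¹ᵁ U : Set (Spec (.of E[X])))ᶜ
  have hZ : IsClosed Z := (Φ ⁻¹ᵁ U).2.isClosed_compl
  obtain ⟨N, hN⟩ : t ∈ ((PrimeSpectrum.vanishingIdeal Z).map constantCoeff).radical := by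
    rw [Ideal.radical_eq_sInf, Submodule.mem_sInf]
    rintro P ⟨h1, h2⟩
    by_contra ht
    have : PrimeSpectrum.comap constantCoeff ⟨P, h2⟩ ∈ Z := by
      rw [← hZ.closure_eq, ← PrimeSpectrum.zeroLocus_vanishingIdeal_eq_closure]
      exact Ideal.map_le_iff_le_comap.1 h1
    exact this (h ⟨P, h2⟩ ht)
  obtain ⟨d, h1, h2⟩ := (Ideal.mem_map_iff_of_surjective _ constantCoeff_surjective).1 hN
  exact ⟨N, d, h2, fun w hw => by_contra fun a =>
    hw ((PrimeSpectrum.mem_vanishingIdeal Z d).1 h1 w a)⟩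

/-- rescaling of the variable -/
noncomputable abbrev sc (t : E) : E[X] →+* E[X] := eval₂RingHom C (C t * Polynomial.X)

theorem sc_C (t a : E) : sc t (C a) = C a := eval₂_C _ _

theorem sc_X (t : E) : sc t Polynomial.X = C t * Polynomial.X := eval₂_X _ _

theorem sc_inj {t : E} (h : IsUnit t) : Function.Injective (sc t) := by
  obtain ⟨s, e⟩ := h.exists_right_inv
  have : (sc s).comp (sc t) = RingHom.id _ := Polynomial.ringHom_ext
    (fun a => by rw [RingHom.comp_apply, sc_C, sc_C, RingHom.id_apply])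
    (by rw [RingHom.comp_apply, sc_X, map_mul, sc_C, sc_X, ← mul_assoc, ← C_mul, e]; simp)
  exact Function.LeftInverse.injective (g := sc s) (RingHom.congr_fun this)

theorem sc_map (ι : D →+* E) (t : D) (G : D[X]) : sc (ι t) (G.map ι) = (sc t G).map ι :=
  RingHom.congr_fun (f := (sc (ι t)).comp (mapRingHom ι)) (g := (mapRingHom ι).comp (sc t))
    (Polynomial.ringHom_ext (fun a => by simp) (by simp)) G

variable [Algebra D E] {p : D} [IsLocalization.Away p E]

variable (p) in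
theorem surj (F : E[X]) : ∃ (n : ℕ) (G : D[X]),
    F * C (algebraMap D E p) ^ n = G.map (algebraMap D E) := by
  let := Polynomial.algebra D E
  have := Polynomial.isLocalization (Submonoid.powers p) E
  rw [Submonoid.map_powers] at this
  obtain ⟨n, G, e⟩ := IsLocalization.Away.surj (S := E[X]) (C p) F
  exact ⟨n, G, by simpa using e⟩

variable (p) in
theorem scale {F : E[X]} {b : D} (h : F.coeff 0 = algebraMap D E b) : ∀ᶠ e in atTop, ∃ G : D[X],
    sc (algebraMap D E p ^ e) F = (C b + C p * G).map (algebraMap D E) := by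
  obtain ⟨n, G, e⟩ := surj p F.divX
  refine eventually_atTop.2 ⟨n + 1, fun m hm => ?_⟩
  obtain ⟨m, rfl⟩ := Nat.exists_eq_add_of_le hm
  refine ⟨C p ^ m * Polynomial.X * sc (p ^ (n + 1 + m)) G, ?_⟩
  have := congrArg (sc (algebraMap D E p ^ (n + 1 + m))) e
  rw [map_mul, map_pow, sc_C, ← map_pow (algebraMap D E), sc_map, map_pow] at this
  rw [← X_mul_divX_add F, h, map_add, map_mul, sc_C, sc_X]
  simp only [Polynomial.map_add, Polynomial.map_mul, Polynomial.map_pow, map_C, map_X, ← this,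
    map_pow]
  ring

theorem good {rE : E[X] →+* L} (hr : Function.Injective rE) {g : D} {N : ℕ} {d : E[X]}
    (hd : d.coeff 0 = algebraMap D E g ^ N) {c : Localization.Away d →+* L}
    (hc : c.comp (algebraMap _ _) = (rE.comp C).comp constantCoeff) {y : Localization.Away d}
    (hy : c y ∈ aw ((rE.comp C).comp (algebraMap D E)) g) :
    ∀ᶠ e in atTop, ∀ τ : Localization.Away d →+* L,
      τ.comp (algebraMap _ _) = rE.comp (sc (algebraMap D E p ^ e)) →
      ∀ (P : Ideal D[X]) [P.IsPrime], C p ∈ P → C g ∉ P →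
        τ y ∈ locS (rE.comp (mapRingHom (algebraMap D E))) P := by
  obtain ⟨s, b, hb⟩ := hy
  obtain ⟨n, F, e⟩ := IsLocalization.Away.surj d y
  have h1 : (F * C (algebraMap D E g ^ s)).coeff 0 = algebraMap D E (b * (g ^ N) ^ n) := by
    have := congrArg c e
    rw [map_mul, map_pow, ← c.comp_apply, ← c.comp_apply, hc] at this
    refine C_injective (hr ?_)
    simp only [RingHom.comp_apply, constantCoeff_apply, hd, map_pow] at this hb
    rw [mul_coeff_zero, coeff_C_zero]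
    simp only [map_mul, map_pow, ← this, hb]
    ring
  filter_upwards [scale p h1, scale p (hd.trans (map_pow _ g N).symm)] with m ⟨G, h2⟩ ⟨G', h3⟩
    τ hτ P hP h4 h5
  refine ⟨C (b * (g ^ N) ^ n) + C p * G, (C (g ^ N) + C p * G') ^ n * C g ^ s, fun a => ?_, ?_⟩
  · rcases hP.mem_or_mem a with a | a
    · have := (P.add_mem_iff_left (P.mul_mem_right G' h4)).1 (hP.mem_of_pow_mem _ a)
      exact h5 (hP.mem_of_pow_mem N (by rwa [← map_pow]))
    · exact h5 (hP.mem_of_pow_mem _ a)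
  · have := congrArg τ e
    rw [map_mul, map_pow, ← τ.comp_apply, ← τ.comp_apply, hτ] at this
    simp only [RingHom.comp_apply, coe_mapRingHom] at this ⊢
    rw [← h2, Polynomial.map_mul, Polynomial.map_pow, ← h3, Polynomial.map_pow, map_C, map_mul,
      map_pow, ← mul_assoc, this, map_mul, sc_C, map_mul, C_pow]

end LocA

open LocA in
theorem loc [X.IsSeparated] (g : X ⟶ Spec (.of A)) [LocallyOfFiniteType g] [IsDomain D] {p : D}
    (hp : p ≠ 0) [Algebra D E] [IsLocalization.Away p E] (ψ : A →+* D) (q : Spec (.of D) ⟶ X)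
    (hq : q ≫ g = sp ψ) (Φ : Spec (.of E[X]) ⟶ X)
    (hΦ : Φ ≫ g = sp (C.comp ((algebraMap D E).comp ψ)))
    (h0 : sp constantCoeff ≫ Φ = sp (algebraMap D E) ≫ q) :
    ∃ (e : ℕ) (Ψ : Spec (.of D[X]) ⟶ X), sp (mapRingHom (algebraMap D E)) ≫ Ψ =
      sp (eval₂RingHom C (C (algebraMap D E p ^ e) * Polynomial.X)) ≫ Φ := by
  have le := powers_le_nonZeroDivisors_of_noZeroDivisors hp
  have : IsDomain E := IsLocalization.isDomain_of_le_nonZeroDivisors _ le
  have hι : Function.Injective (algebraMap D E) := IsLocalization.injective _ le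
  have hu : IsUnit (algebraMap D E p) := IsLocalization.Away.algebraMap_isUnit p
  obtain ⟨L, _, rE, hr⟩ : ∃ (L : Type) (_ : Field L) (r : E[X] →+* L), Function.Injective r :=
    ⟨FractionRing E[X], _, algebraMap _ _, IsFractionRing.injective _ _⟩
  have hr' : Function.Injective (rE.comp (mapRingHom (algebraMap D E))) :=
    hr.comp (map_injective _ hι)
  have hC : Function.Injective ((rE.comp C).comp (algebraMap D E)) :=
    (hr.comp C_injective).comp hι
  obtain ⟨s, h1, h2⟩ := (Ideal.span_eq_top_iff_finite {t : D | ∀ᶠ e in atTop,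
      ∀ (P : Ideal D[X]) [P.IsPrime], C p ∈ P → C t ∉ P →
      ∃ η : Spec (.of (locS (rE.comp (mapRingHom (algebraMap D E))) P)) ⟶ X,
        sp (Subring.subtype _) ≫ η = sp (rE.comp (sc (algebraMap D E p ^ e))) ≫ Φ}).1 (by
    by_contra h
    obtain ⟨m, hm, h1⟩ := Ideal.exists_le_maximal _ h
    obtain ⟨B, _, u, _, α, h2, h3, h4⟩ := chart g (q (⟨m, hm.isPrime⟩ : PrimeSpectrum D))
    obtain ⟨t, h5, h6⟩ := exists_basic (σ := q) (U := u.opensRange) _ h2
    refine h5 (h1 (Ideal.subset_span ?_))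
    have t0 : ((rE.comp C).comp (algebraMap D E)) t ≠ 0 :=
      (map_ne_zero_iff _ hC).2 fun e => h5 (e ▸ zero_mem _)
    obtain ⟨N, d, h7, h8⟩ := tube (Φ := Φ) (U := u.opensRange) (t := algebraMap D E t)
      fun w hw => h0 ▸ h6 (PrimeSpectrum.comap (algebraMap D E) w) hw
    have d0 : ((rE.comp C).comp constantCoeff) d ≠ 0 := by
      rw [RingHom.comp_apply, constantCoeff_apply, h7, map_pow]
      exact pow_ne_zero _ t0
    obtain ⟨κ, e1⟩ := factor u h6
    obtain ⟨φ, e2⟩ := factor u h8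
    obtain ⟨c, e3⟩ := exists_away d _ d0.isUnit
    have e4 := IsLocalization.Away.lift_comp (S := Localization.Away t) t t0.isUnit
    have e5 : c.comp φ = (IsLocalization.Away.lift t t0.isUnit).comp κ := sp_cancel u (by
      rw [← sp_comp_assoc, ← sp_comp_assoc, e1, e2, sp_comp_assoc, sp_comp_assoc, e3, e4,
        ← sp_comp_assoc, h0, sp_comp_assoc])
    have e6 : φ.comp α = (algebraMap _ _).comp (C.comp ((algebraMap D E).comp ψ)) := sp_inj (by
      rw [← sp_comp, ← h3, ← Category.assoc, e2, Category.assoc, hΦ, sp_comp])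
    let := α.toAlgebra
    obtain ⟨S, hS⟩ := h4.out
    filter_upwards [(eventually_all_finset S).2 fun a _ => good (p := p) hr h7 e3 (y := φ a)
      (range_away t0.isUnit ▸ ⟨κ a, (RingHom.congr_fun e5 a).symm⟩)] with e he P hP h9 h10
    obtain ⟨τ, e7⟩ := exists_away d (rE.comp (sc (algebraMap D E p ^ e))) (Ne.isUnit
      ((map_ne_zero_iff (rE.comp (sc _)) (hr.comp (sc_inj (hu.pow e)))).2
        fun e => d0 (by rw [e, map_zero])))
    have : ∀ a, τ.comp φ a ∈ locS (rE.comp (mapRingHom (algebraMap D E))) P := fun a => by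
      refine Algebra.adjoin_induction (p := fun a _ => τ.comp φ a ∈ locS _ P)
        (fun a ha => he a ha τ e7 P h9 h10) (fun x => ?_) (fun _ _ _ _ a b => ?_)
        (fun _ _ _ _ a b => ?_) (hS.ge (Algebra.mem_top (x := a)))
      · have : (τ.comp φ).comp α = (rE.comp (mapRingHom (algebraMap D E))).comp (C.comp ψ) := by
          rw [RingHom.comp_assoc, e6, ← RingHom.comp_assoc, e7]
          ext x
          simp
        exact (RingHom.congr_fun this x).symm ▸ map_mem_locS _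
      · exact map_add (τ.comp φ) _ _ ▸ add_mem a b
      · exact map_mul (τ.comp φ) _ _ ▸ mul_mem a b
    refine ⟨sp ((τ.comp φ).codRestrict _ this) ≫ u, ?_⟩
    rw [sp_comp_assoc, ← e7, ← sp_comp_assoc, ← sp_comp_assoc, ← e2, sp_comp_assoc, sp_comp_assoc]
    rfl)
  obtain ⟨e, he⟩ := ((eventually_all_finset s).2 fun t ht => h1 ht).exists
  obtain ⟨Ψ, -, h3⟩ := exists_glue hr' (sp (C.comp ψ)) g
    (sp (rE.comp (sc (algebraMap D E p ^ e))) ≫ Φ) (by
      rw [Category.assoc, hΦ, sp_comp, sp_comp]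
      exact congrArg sp (RingHom.ext fun x => by simp)) fun P hP => by
    by_cases h : C p ∈ P
    · obtain ⟨t, ht⟩ := exists_notMem (p := (Subtype.val : s → D)) (by rwa [Subtype.range_coe])
        (P := P.comap C) (Ideal.comap_ne_top _ hP.ne_top)
      exact he t t.2 P h ht
    · have : ∀ F, rE F ∈ locS (rE.comp (mapRingHom (algebraMap D E))) P := fun F => by
        obtain ⟨n, G, e⟩ := surj p F
        exact ⟨G, C p ^ n, fun a => h (hP.mem_of_pow_mem _ a), by
          simpa using congrArg rE e⟩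
      exact ⟨sp ((rE.codRestrict _ this).comp (sc (algebraMap D E p ^ e))) ≫ Φ,
        sp_comp_assoc _ _ _⟩
  exact ⟨e, Ψ, ext_sp hr (by rw [sp_comp_assoc, sp_comp_assoc, h3])⟩

end Pool.Agent.MP_e8e0b6_ag.T

end MrgPart0

-- ======== part 1: formerly Pool.Agent.MP_e8e0b6_ag.T.Core
section MrgPart1

/-!
Families covered by affine spaces in which lines of the base lift are elliptic.
-/

open AlgebraicGeometry CategoryTheory Limits Polynomial IsLocalRing TrivSqZeroExt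

namespace Pool.Agent.MP_e8e0b6_ag.T

open Z

variable {k A T : Type} [Field k] [CommRing A] [CommRing T] {S X : Scheme.{0}} {n : ℕ}
  {f : S ⟶ Spec (.of k)} {π : X ⟶ S}

theorem exists_lift {B : Type} [CommRing B] (j : Spec (.of B) ⟶ X) [IsOpenImmersion j]
    (g : Spec (.of T) ⟶ X) (h : ∀ w, g w ∈ j.opensRange) : ∃ μ, sp μ ≫ j = g := by
  obtain ⟨μ, e⟩ := sp_surj (IsOpenImmersion.lift j g (Set.range_subset_iff.2 h))
  exact ⟨μ, by rw [e, IsOpenImmersion.lift_fac]⟩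

theorem exists_inv_sq {p : A[X]} (h : IsUnit (p.coeff 0)) :
    ∃ c d : A[X], p * c = 1 + Polynomial.X ^ 2 * d := by
  obtain ⟨u, hu⟩ := h.exists_right_inv
  have h1 : p * C u = 1 + Polynomial.X * (p.divX * C u) := by
    conv_lhs => rw [← X_mul_divX_add p, add_mul, ← map_mul, hu, map_one, add_comm, mul_assoc]
  exact ⟨C u * (1 - Polynomial.X * (p.divX * C u)), -(p.divX * C u) ^ 2, by
    rw [← mul_assoc, h1]; ring⟩

theorem exists_germ [X.IsSeparated] [LocallyOfFiniteType (π ≫ f)] [IsDomain A] [Algebra k A]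
    (c : Cell f π n) (q : Spec (.of A[X]) ⟶ X) (hq : q ≫ π ≫ f = sp (algebraMap k A[X]))
    {p : A[X]} (hp : IsUnit (p.coeff 0))
    (hp' : ∀ w : PrimeSpectrum A[X], p ∉ w.asIdeal → q w ∈ c.h.opensRange) (x : A →ₐ[k] k)
    (κ : MvPolynomial (Fin n) c.B →+* A) (κ' : MvPolynomial (Fin n) c.B →+* DualNumber k)
    (hκ : (fstR k).comp κ' = (x : A →+* k).comp κ)
    (h0 : sp constantCoeff ≫ q ≫ π = sp κ ≫ c.h ≫ π)
    (h1 : sp (eval₂RingHom ((inlR k).comp x) DualNumber.eps) ≫ q ≫ π = sp κ' ≫ c.h ≫ π) :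
    ∃ Φ : Spec (.of A[X]) ⟶ X, Φ ≫ π ≫ f = sp (algebraMap k A[X]) ∧
      sp constantCoeff ≫ Φ = sp κ ≫ c.h ∧
      sp (eval₂RingHom ((inlR k).comp x) DualNumber.eps) ≫ Φ = sp κ' ≫ c.h := by
  have p0 : p ≠ 0 := fun e => hp.ne_zero (by rw [e, coeff_zero])
  obtain ⟨E, _, _, _⟩ : ∃ (E : Type) (_ : CommRing E) (_ : Algebra A[X] E),
      IsLocalization.Away p E := ⟨Localization.Away p, _, _, inferInstance⟩
  obtain ⟨μ, hμ⟩ := exists_lift c.h (sp (algebraMap A[X] E) ≫ q)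
    (mem_of_unit hp' (IsLocalization.Away.algebraMap_isUnit p))
  let a : Fin n → A[X] := fun i => C (κ (MvPolynomial.X i)) +
    Polynomial.X * C (algebraMap k A (κ' (MvPolynomial.X i)).snd)
  let H : MvPolynomial (Fin n) c.B →+* E[X] := MvPolynomial.eval₂Hom
    (C.comp (μ.comp MvPolynomial.C)) fun i => C (μ (MvPolynomial.X i)) +
      Polynomial.X * C (algebraMap _ E (a i) - μ (MvPolynomial.X i))
  have h2 : (sp H ≫ c.h) ≫ π ≫ f = sp (C.comp ((algebraMap _ E).comp (algebraMap k A[X]))) := by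
    rw [← sp_comp, ← sp_comp, ← hq, ← reassoc_of% hμ, Category.assoc, reassoc_of% c.proj,
      sp_comp_assoc, sp_comp_assoc, sp_comp_assoc, MvPolynomial.eval₂Hom_comp_C]
  obtain ⟨e, Ψ, hΨ⟩ := loc (π ≫ f) p0 _ q hq _ h2 (by
    rw [← hμ, sp_comp_assoc]
    congr 2
    exact MvPolynomial.ringHom_ext (fun b => by simp [H]) fun i => by simp [H])
  obtain ⟨c₀, d, hc⟩ := exists_inv_sq (p := p ^ e) (by
    rw [← constantCoeff_apply, map_pow]; exact hp.pow e)
  have key : ∀ {T : Type} [CommRing T] (θ : A[X] →+* T) (ν : MvPolynomial (Fin n) c.B →+* T),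
      θ Polynomial.X ^ 2 = 0 → sp θ ≫ q ≫ π = sp ν ≫ c.h ≫ π →
      (∀ i, θ (a i) = ν (MvPolynomial.X i)) →
      sp θ ≫ sp (evalRingHom c₀) ≫ Ψ = sp ν ≫ c.h := fun {T} _ θ ν e1 e2 e3 => by
    have e4 : θ p ^ e * θ c₀ = 1 := by
      rw [← map_pow, ← map_mul, hc, map_add, map_mul, map_pow, e1, zero_mul, add_zero, map_one]
    have e5 : IsUnit (θ p) := by
      obtain ⟨c₁, d₁, h⟩ := exists_inv_sq hp
      refine .of_mul_eq_one (θ c₁) ?_
      rw [← map_mul, h, map_add, map_mul, map_pow, e1, zero_mul, add_zero, map_one]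
    obtain ⟨χ, rfl⟩ : ∃ χ : E →+* T, χ.comp (algebraMap _ _) = θ :=
      ⟨_, IsLocalization.Away.lift_comp p e5⟩
    rw [← sp_comp_assoc, ← reassoc_of% hμ, c.proj, sp_comp_assoc, sp_comp_assoc,
      sp_comp_assoc] at e2
    have e6 := RingHom.congr_fun (sp_cancel c.j e2)
    rw [sp_comp_assoc, show (χ.comp (algebraMap _ _)).comp (evalRingHom c₀) =
      (eval₂RingHom χ (χ (algebraMap _ E c₀))).comp (mapRingHom (algebraMap _ E)) by ext <;> simp,
      ← sp_comp_assoc, hΨ, sp_comp_assoc, sp_comp_assoc]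
    congr 2
    refine MvPolynomial.ringHom_ext (fun b => by simpa [H] using e6 b) fun i => ?_
    simp only [RingHom.comp_apply] at e3 e4
    simp [H, e4, e3]
  refine ⟨sp (evalRingHom c₀) ≫ Ψ, ?_, key _ _ (by simp) h0 fun i => by simp [a],
    key _ _ (by simp [sq]) h1 fun i => ?_⟩
  · obtain ⟨ω, hω⟩ := sp_surj (Ψ ≫ π ≫ f)
    have := hΨ =≫ π ≫ f
    rw [Category.assoc, Category.assoc, h2, ← hω, sp_comp, sp_comp] at this
    rw [Category.assoc, ← hω, sp_comp]
    refine congrArg sp (RingHom.ext fun b => ?_)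
    have h3 : ω b = C (algebraMap k _ b) := map_injective _ (IsLocalization.injective E
      (powers_le_nonZeroDivisors_of_noZeroDivisors p0)) (by
        simpa using RingHom.congr_fun (sp_inj this) b)
    simp [h3]
  · ext
    · simpa [a, algebraMap_eq_inl] using (RingHom.congr_fun hκ _).symm
    · simp [a, algebraMap_eq_inl]

theorem elliptic_of_cells [IsAlgClosed k] [CharZero k] (hX : SmoothVariety (π ≫ f))
    (eS : Elliptic f) (h : Cellular f π n) (h' : Sec f π) : Elliptic (π ≫ f) := by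
  have := hX.separated
  have := hX.integral
  have := hX.smooth
  have := hX.finiteType
  have := isSeparated_of (π ≫ f)
  refine elliptic_of_germs hX fun v hv => ?_
  obtain ⟨U, hU, hL⟩ := exists_line eS (v ≫ π) (by rwa [Category.assoc])
  obtain ⟨A, _, j, _, ψ, h1, h2, h3, h4⟩ := exists_piece (π ≫ f) (v (closedPoint _)) (π ⁻¹ᵁ U) hU
    RingHom.IsStandardSmooth fun A _ j _ φ h => (smooth_of_chart j h).locally_isStandardSmooth
  obtain ⟨θ, rfl⟩ := exists_factor v j h1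
  have := θ.domain_nontrivial
  have := isDomain_chart j
  let := ψ.toAlgebra
  have h5 : θ.comp ψ = algebraMap k _ := sp_inj (by rw [← sp_comp, ← h3, ← Category.assoc, hv]; rfl)
  let x : A →ₐ[k] k := ⟨(fstR k).comp θ, fun a => congrArg fst (DFunLike.congr_fun h5 a)⟩
  have h6 : epsPoint k ≫ sp θ = sp (x : A →+* k) := sp_comp _ _
  obtain ⟨σ, e1, e2, e3⟩ := hL A (j ≫ π) x (by rintro _ ⟨p, rfl⟩; exact h2 ⟨p, rfl⟩)
    (by rw [← h6]; simp)
  have e4 : σ ≫ f = sp (algebraMap k A[X]) := by rw [e1, Category.assoc, h3, sp_comp]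
  obtain ⟨d, z, hz, hz'⟩ := h4.exists_etale_mvPolynomial
  obtain ⟨A₁, _, _, _, ε₁, x₁, q, f1, _, f2, f3⟩ :=
    h' A ⟨d, ⟨z, DFunLike.congr_fun hz⟩, hz'⟩ x σ e4
  have f4 : (x₁ : A₁ →+* k).comp (ε₁ : A →+* A₁) = (x : A →+* k) :=
    RingHom.ext fun a => DFunLike.congr_fun f2 a
  have f5 : sp constantCoeff ≫ q ≫ π = sp (ε₁ : A →+* A₁) ≫ j ≫ π := by
    rw [f3, ← e2, sp_comp_assoc, sp_comp_assoc]
    congr 2
    ext <;> simp
  obtain ⟨c, -, hc⟩ := h (sp (x : A →+* k) ≫ j ≫ π) (by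
      rw [Category.assoc, Category.assoc, h3, sp_comp, ← sp_id]
      exact congrArg sp x.comp_algebraMap)
    {sp (x₁ : A₁ →+* k) ≫ sp (ε₁ : A →+* A₁) ≫ j, sp ((x₁ : A₁ →+* k).comp constantCoeff) ≫ q}
    (Set.toFinite _) (by
      rintro _ (rfl | rfl)
      · rw [sp_comp_assoc, f4, Category.assoc]
      · rw [← sp_comp_assoc, Category.assoc, Category.assoc, f5, sp_comp_assoc, f4])
  have key : ∀ {D : Type} [CommRing D] (y : D →+* k) (g : Spec (.of D) ⟶ X), c.Has (sp y ≫ g) →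
      ∃ p, y p ≠ 0 ∧ ∀ w : PrimeSpectrum D, p ∉ w.asIdeal → g w ∈ c.h.opensRange :=
    fun y g ⟨a, ha⟩ => by
      obtain ⟨p, g1, g2⟩ := exists_basic (σ := g) (U := c.h.opensRange) (sp y (closedPoint k))
        ⟨_, congrArg (fun u => u (closedPoint k)) ha⟩
      exact ⟨p, fun e => g1 (by change y p ∈ maximalIdeal k; rw [e]; exact zero_mem _), g2⟩
  obtain ⟨g, g1, g2⟩ := key _ _ (hc _ (.inl rfl))
  obtain ⟨p, g3, g4⟩ := key _ _ (hc _ (.inr rfl))
  obtain ⟨A₂, _, _, _, ε₂, x₂, -, _, f6, -, f7, -⟩ := f1.loc x₁ (t := g * p.coeff 0)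
    (by rw [map_mul]; exact mul_ne_zero g1 g3)
  have f8 : (x₂ : A₂ →+* k).comp (ε₂ : A₁ →+* A₂) = (x₁ : A₁ →+* k) :=
    RingHom.ext fun a => DFunLike.congr_fun f6 a
  rw [map_mul] at f7
  obtain ⟨κ, hκ⟩ := exists_lift c.h (sp (ε₂ : A₁ →+* A₂) ≫ sp (ε₁ : A →+* A₁) ≫ j)
    (mem_of_unit g2 (isUnit_of_mul_isUnit_left f7))
  have f9 : sp (fstR k) ≫ sp θ ≫ j = sp ((x₂ : A₂ →+* k).comp κ) ≫ c.h := by
    rw [← sp_comp_assoc, hκ, sp_comp_assoc, sp_comp_assoc, sp_comp_assoc, f8, f4]; rfl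
  obtain ⟨κ', hκ'⟩ := exists_factor (sp θ ≫ j) c.h (by
    rw [← sp_closedPoint (fstR k) fun _ => isUnit_iff_isUnit_fst.2]
    exact ⟨_, congrArg (fun u => u (closedPoint k)) f9.symm⟩)
  obtain ⟨Φ, h7, h8, h9⟩ := exists_germ c (sp (mapRingHom (ε₂ : A₁ →+* A₂)) ≫ q) (by
      rw [Category.assoc, reassoc_of% f3, e4, sp_comp, sp_comp]
      exact congrArg sp (RingHom.ext fun b => by simp))
    (p := p.map (ε₂ : A₁ →+* A₂)) (by rw [coeff_map]; exact isUnit_of_mul_isUnit_right f7)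
    (fun w hw => g4 (PrimeSpectrum.comap (mapRingHom (ε₂ : A₁ →+* A₂)) w) hw) x₂ κ κ'
    (sp_cancel c.h (by rw [← sp_comp_assoc, hκ', f9])) (by
      rw [reassoc_of% hκ, ← f5, Category.assoc, sp_comp_assoc, sp_comp_assoc]
      congr 2
      ext <;> simp) (by
      rw [reassoc_of% hκ', ← Category.assoc (sp θ), ← e3, Category.assoc, f3, sp_comp_assoc,
        sp_comp_assoc, ← f4, ← f8]
      congr 2
      ext <;> simp)
  refine ⟨A₂, _, sp (ε₂ : A₁ →+* A₂) ≫ sp (ε₁ : A →+* A₁) ≫ j, inferInstance, Φ, x₂, ?_,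
    h8.trans hκ, h9.trans hκ'⟩
  rw [h7, Category.assoc, Category.assoc, h3, sp_comp, sp_comp, sp_comp]
  exact congrArg sp (RingHom.ext fun b => by
    simp [show ψ b = algebraMap k A b from rfl])

end Pool.Agent.MP_e8e0b6_ag.T

end MrgPart1

-- ======== part 2: formerly Pool.Agent.MP_e8e0b6_ag.T.BCh1
section MrgPart2

/-!
The first chart of the blow-up along the origin of a chart.
-/

open AlgebraicGeometry CategoryTheory Limits Polynomial IsLocalRing

namespace Pool.Agent.MP_e8e0b6_ag.T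

open Z

variable {k A B D E T T' L : Type} [Field k] [CommRing A] [CommRing B] [CommRing D] [CommRing E]
  [CommRing T] [CommRing T'] [Field L] {S X X' W F : Scheme.{0}} {n m : ℕ}
  {f : S ⟶ Spec (.of k)} {π : X ⟶ S} {z : S ⟶ X} {ρ : X' ⟶ X} {φ : F ⟶ Spec (.of k)}
  {G : LinGroup k} {a : G.Action φ}

namespace BCh1

theorem beta_C (b : B) : beta B n (MvPolynomial.C b) = MvPolynomial.C b := by simp [beta]

theorem beta_X (i : Fin (n + 1)) : beta B n (MvPolynomial.X i) =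
    MvPolynomial.X 0 * if i = 0 then 1 else MvPolynomial.X i := by
  by_cases h : i = 0 <;> simp [beta, h]

theorem span_top {w : Fin (n + 1) → A} (h : IsUnit (w 0)) : Ideal.span (Set.range w) = ⊤ :=
  Ideal.eq_top_of_isUnit_mem _ (Ideal.subset_span ⟨0, rfl⟩) h

theorem exists_loc [IsDomain D] (w : PrimeSpectrum D) : ∃ (T : Type) (_ : CommRing T)
    (_ : IsDomain T) (_ : IsLocalRing T) (g : D →+* T), Function.Injective g ∧
      sp g (closedPoint T) = w :=
  ⟨Localization.AtPrime w.asIdeal, inferInstance, inferInstance, inferInstance, algebraMap _ _,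
    IsLocalization.injective _ w.asIdeal.primeCompl_le_nonZeroDivisors,
    PrimeSpectrum.ext (IsLocalization.AtPrime.under_maximalIdeal _ w.asIdeal)⟩

theorem exists_inv (t : A) : ∃ (E : Type) (_ : CommRing E) (g : A →+* E),
    IsOpenImmersion (sp g) ∧ IsUnit (g t) ∧ (∀ x ∈ nonZeroDivisors A, g x ∈ nonZeroDivisors E) ∧
      ∀ (T : Type) [CommRing T] (l : A →+* T), IsUnit (l t) → ∃ l' : E →+* T, l'.comp g = l :=
  ⟨Localization.Away t, inferInstance, algebraMap _ _,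
    inferInstanceAs (IsOpenImmersion (sp (algebraMap A (Localization.Away t)))),
    IsLocalization.Away.algebraMap_isUnit t,
    fun _ hx => IsLocalization.nonZeroDivisors_le_comap (Submonoid.powers t) _ hx,
    fun _ _ _ hl => ⟨_, IsLocalization.Away.lift_comp t hl⟩⟩

end BCh1

open BCh1

theorem blow_chart {c : Cell f π (n + 1)} (h : c.Zero z) (hz : z ≫ π = 𝟙 S) (hρ : IsBlowup z ρ) :
    ∃ h' : Spec (.of (MvPolynomial (Fin (n + 1)) c.B)) ⟶ X', IsOpenImmersion h' ∧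
      h' ≫ ρ = sp (beta c.B n) ≫ c.h ∧ ∀ (A : Type) [CommRing A] (u : Spec (.of A) ⟶ X')
        (μ : MvPolynomial (Fin (n + 1)) c.B →+* A) (x : A) (w : Fin (n + 1) → A),
        u ≫ ρ = sp μ ≫ c.h → x ∈ nonZeroDivisors A → (∀ i, μ (MvPolynomial.X i) = x * w i) →
        IsUnit (w 0) → ∃ r, sp r ≫ h' = u := by
  have X0 : (MvPolynomial.X 0 : MvPolynomial (Fin (n + 1)) c.B) ≠ 0 := MvPolynomial.X_ne_zero 0
  obtain ⟨h', hh, -⟩ := h.lift hz hρ (beta c.B n) (mem_nonZeroDivisors_of_ne_zero X0)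
    (w := fun i => if i = 0 then 1 else MvPolynomial.X i) (span_top (by simp)) beta_X
  have key : ∀ (A : Type) [CommRing A] (u : Spec (.of A) ⟶ X')
      (μ : MvPolynomial (Fin (n + 1)) c.B →+* A) (x : A) (w : Fin (n + 1) → A),
      u ≫ ρ = sp μ ≫ c.h → x ∈ nonZeroDivisors A → (∀ i, μ (MvPolynomial.X i) = x * w i) →
      IsUnit (w 0) → ∃ r, sp r ≫ h' = u := fun A _ u μ x w hu hx e hw => by
    obtain ⟨v, hv⟩ := hw.exists_right_inv
    refine ⟨MvPolynomial.eval₂Hom (μ.comp MvPolynomial.C)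
      fun i => if i = 0 then x * w 0 else w i * v,
      (h.lift hz hρ μ hx (span_top hw) e).unique ?_ hu⟩
    rw [Category.assoc, hh, sp_comp_assoc]
    refine congrArg (sp · ≫ _) (MvPolynomial.ringHom_ext (fun b => ?_) fun i => ?_)
    · simp [beta_C]
    · rw [RingHom.comp_apply, beta_X, e]
      by_cases hi : i = 0
      · simp [hi]
      · simp only [hi, if_false, map_mul, MvPolynomial.eval₂Hom_X', if_true]
        linear_combination x * w i * hv
  refine ⟨h', isOpenImmersion_of_local h' (fun L _ χ χ' hχ e => ?_) fun p => ?_, hh, key⟩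
  · have e1 : χ.comp (beta c.B n) = χ'.comp (beta c.B n) := sp_cancel c.h (by
      rw [← sp_comp_assoc, ← sp_comp_assoc, ← hh, reassoc_of% e])
    have e2 : ∀ y, χ (beta c.B n y) = χ' (beta c.B n y) := DFunLike.congr_fun e1
    have e3 : χ (MvPolynomial.X 0) = χ' (MvPolynomial.X 0) := by
      simpa [beta_X] using e2 (MvPolynomial.X 0)
    refine MvPolynomial.ringHom_ext (fun b => by simpa [beta_C] using e2 (MvPolynomial.C b))
      fun i => ?_
    by_cases hi : i = 0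
    · rw [hi, e3]
    · have e4 := e2 (MvPolynomial.X i)
      rw [beta_X, if_neg hi, map_mul, map_mul, ← e3] at e4
      exact mul_left_cancel₀ ((map_ne_zero_iff χ hχ).2 X0) e4
  · obtain ⟨A, _, u, μ, x, w, ou, hp, hu, hx, hw, e⟩ := h.piece hz hρ (h' p) (by
      rw [← Scheme.Hom.comp_apply, hh, Scheme.Hom.comp_apply]
      exact ⟨_, rfl⟩)
    obtain ⟨T, _, _, _, g, hg, hgp⟩ := exists_loc p
    have hq : (sp g ≫ h') (closedPoint T) = h' p := by rw [Scheme.Hom.comp_apply, hgp]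
    obtain ⟨l, hl⟩ := exists_factor (sp g ≫ h') u (by rwa [hq])
    have e1 : l.comp μ = g.comp (beta c.B n) := sp_cancel c.h (by
      rw [← sp_comp_assoc, ← sp_comp_assoc, ← hu, ← hh, reassoc_of% hl])
    have e2 : ∀ i, l x * l (w i) =
        g (MvPolynomial.X 0) * g (if i = 0 then 1 else MvPolynomial.X i) := fun i => by
      rw [← map_mul, ← e, ← map_mul, ← beta_X]
      exact DFunLike.congr_fun e1 _
    have e3 : l x * l (w 0) = g (MvPolynomial.X 0) := by simpa using e2 0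
    have e4 : l x ≠ 0 := fun h0 => (map_ne_zero_iff g hg).2 X0 (by rw [← e3, h0, zero_mul])
    have e5 : IsUnit (l (w 0)) := by
      obtain ⟨i, hi⟩ := exists_notMem hw
        (Ideal.comap_ne_top l (maximalIdeal.isMaximal T).ne_top)
      have e6 : l (w i) = l (w 0) * g (if i = 0 then 1 else MvPolynomial.X i) :=
        mul_left_cancel₀ e4 (by rw [e2, ← e3, mul_assoc])
      have e7 : IsUnit (l (w i)) := by
        by_contra hn
        exact hi hn
      rw [e6] at e7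
      exact isUnit_of_mul_isUnit_left e7
    obtain ⟨E, _, ε, oε, u0, hn, hf⟩ := exists_inv (w 0)
    obtain ⟨r, hr⟩ := key E (sp ε ≫ u) (ε.comp μ) (ε x) (fun i => ε (w i))
      (by rw [Category.assoc, hu, sp_comp_assoc]) (hn x hx)
      (fun i => by rw [RingHom.comp_apply, e, map_mul]) u0
    obtain ⟨l', hl'⟩ := hf T l e5
    refine ⟨E, inferInstance, r, by rw [hr]; infer_instance, sp l' (closedPoint T), ?_⟩
    rw [hr, ← Scheme.Hom.comp_apply, sp_comp_assoc, hl', hl, hq]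

end Pool.Agent.MP_e8e0b6_ag.T

end MrgPart2

-- ======== part 3: formerly Pool.Agent.MP_e8e0b6_ag.T.BCh2
section MrgPart3

/-!
The blow-up along a section of a family covered by affine spaces is covered by affine spaces.
-/

open AlgebraicGeometry CategoryTheory Limits Polynomial IsLocalRing

namespace Pool.Agent.MP_e8e0b6_ag.T

open Z

variable {k B : Type} [Field k] [CommRing B] {S X X' : Scheme.{0}} {n : ℕ}
  {f : S ⟶ Spec (.of k)} {π : X ⟶ S} {z : S ⟶ X} {ρ : X' ⟶ X}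

namespace BCh2

/-- A linear form with first coefficient one that vanishes at none of finitely many vectors. -/
theorem exists_form {ι : Type} [Infinite k] [Finite ι] (v : ι → Fin (n + 1) → k)
    (hv : ∀ i, v i ≠ 0) : ∃ t : Fin n → k, ∀ i, v i 0 + ∑ j, t j * v i j.succ ≠ 0 := by
  obtain ⟨l, hl⟩ := Module.exists_dual_forall_apply_ne_zero (K := k)
    (fun o : Option ι => o.elim (Pi.single 0 1) v) (by rintro (_ | i); exacts [by simp, hv i])
  have h0 : l (Pi.single 0 1) ≠ 0 := hl none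
  refine ⟨fun j => l (Pi.single j.succ 1) / l (Pi.single 0 1), fun i h => hl (some i) ?_⟩
  have e : l (v i) = (v i 0 + ∑ j : Fin n, l (Pi.single j.succ 1) / l (Pi.single 0 1) *
      v i j.succ) * l (Pi.single 0 1) := by
    conv_lhs => rw [pi_eq_sum_univ' (v i), map_sum, Fin.sum_univ_succ]
    rw [add_mul, Finset.sum_mul]
    congr 1
    · simp
    · exact Finset.sum_congr rfl fun j _ => by simp; field_simp
  exact e.trans (by rw [h, zero_mul])

/-- The shear. -/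
noncomputable def sh (t : Fin n → B) :
    MvPolynomial (Fin (n + 1)) B →ₐ[B] MvPolynomial (Fin (n + 1)) B :=
  MvPolynomial.aeval (Fin.cons (.X 0 + ∑ j, .C (t j) * .X j.succ) fun j => .X j.succ)

theorem sh_zero (t : Fin n → B) : sh t (.X 0) = .X 0 + ∑ j, .C (t j) * .X j.succ := by simp [sh]

theorem sh_succ (t : Fin n → B) (j : Fin n) : sh t (.X j.succ) = .X j.succ := by simp [sh]

theorem sh_sh {t t' : Fin n → B} (h : t + t' = 0) : (sh t).comp (sh t') = AlgHom.id _ _ := by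
  refine MvPolynomial.algHom_ext fun i => ?_
  obtain rfl | ⟨j, rfl⟩ := i.eq_zero_or_eq_succ
  · simp only [AlgHom.comp_apply, sh_zero, map_add, map_sum, map_mul, sh_succ,
      MvPolynomial.algHom_C, MvPolynomial.algebraMap_eq, add_assoc, ← Finset.sum_add_distrib,
      ← add_mul, ← map_add MvPolynomial.C, ← Pi.add_apply t t', h]
    simp
  · simp [sh_succ]

theorem cc_sh (t : Fin n → B) :
    MvPolynomial.constantCoeff.comp (sh t).toRingHom = MvPolynomial.constantCoeff := by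
  refine MvPolynomial.ringHom_ext (fun b => by simp) fun i => ?_
  obtain rfl | ⟨j, rfl⟩ := i.eq_zero_or_eq_succ <;> simp [sh_zero, sh_succ]

theorem mem_range {c : Cell f π n} {y : Spec (.of k) ⟶ X'} (h : c.Has (y ≫ ρ)) :
    ρ (y (closedPoint k)) ∈ Set.range c.h := by
  obtain ⟨a, e⟩ := h
  rw [← Scheme.Hom.comp_apply, ← e]
  exact ⟨_, rfl⟩

theorem away {A : Type} [CommRing A] (θ : A →+* k) {w : A} (h : θ w ≠ 0) :
    ∃ (A' : Type) (_ : CommRing A') (ι : A →+* A') (θ' : A' →+* k), θ'.comp ι = θ ∧ IsUnit (ι w) ∧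
      ∀ x ∈ nonZeroDivisors A, ι x ∈ nonZeroDivisors A' :=
  ⟨Localization.Away w, _, algebraMap _ _, IsLocalization.Away.lift w h.isUnit,
    IsLocalization.Away.lift_comp _ _, IsLocalization.Away.algebraMap_isUnit w,
    fun _ hx => IsLocalization.nonZeroDivisors_le_comap (.powers w) _ hx⟩

/-- The chart of the blow-up attached to a linear form. -/
theorem chart {c : Cell f π (n + 1)} (h0 : c.Zero z) (hz : z ≫ π = 𝟙 S) (hρ : IsBlowup z ρ)
    (τ : Fin n → c.B) : ∃ c' : Cell f (ρ ≫ π) (n + 1),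
      sp (c'.e : c'.B →+* k) ≫ c'.j = sp (c.e : c.B →+* k) ≫ c.j ∧
      ∀ (A : Type) [CommRing A] (u : Spec (.of A) ⟶ X')
        (μ : MvPolynomial (Fin (n + 1)) c.B →+* A) (x : A) (w : Fin (n + 1) → A),
        u ≫ ρ = sp μ ≫ c.h → x ∈ nonZeroDivisors A → (∀ i, μ (.X i) = x * w i) →
        IsUnit (w 0 + ∑ j, μ (.C (τ j)) * w j.succ) → ∃ r, sp r ≫ c'.h = u := by
  let α := AlgEquiv.ofAlgHom (sh (-τ)) (sh τ) (sh_sh (neg_add_cancel τ)) (sh_sh (add_neg_cancel τ))
  have z0 : sp MvPolynomial.constantCoeff ≫ sp (sh (-τ)).toRingHom ≫ c.h = c.j ≫ z :=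
    (sp_comp_assoc _ _ _).trans ((congrArg (sp · ≫ c.h) (cc_sh _)).trans h0)
  have p0 : (sp (sh (-τ)).toRingHom ≫ c.h) ≫ π = sp MvPolynomial.C ≫ c.j := (c.twist α).proj
  obtain ⟨h', _, h1, h2⟩ : ∃ h' : Spec (.of (MvPolynomial (Fin (n + 1)) c.B)) ⟶ X',
      IsOpenImmersion h' ∧ h' ≫ ρ = sp (beta c.B n) ≫ sp (sh (-τ)).toRingHom ≫ c.h ∧
      ∀ (A : Type) [CommRing A] (u : Spec (.of A) ⟶ X')
        (μ : MvPolynomial (Fin (n + 1)) c.B →+* A) (x : A) (w : Fin (n + 1) → A),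
        u ≫ ρ = sp μ ≫ sp (sh (-τ)).toRingHom ≫ c.h → x ∈ nonZeroDivisors A →
        (∀ i, μ (.X i) = x * w i) → IsUnit (w 0) → ∃ r, sp r ≫ h' = u :=
    blow_chart (c := c.twist α) z0 hz hρ
  have p1 : h' ≫ ρ ≫ π = sp MvPolynomial.C ≫ c.j := by
    rw [← Category.assoc, h1, Category.assoc, p0]
    refine (sp_comp_assoc _ _ _).trans (congrArg (sp · ≫ c.j) ?_)
    exact RingHom.ext fun b => MvPolynomial.eval₂Hom_C _ _ _
  refine ⟨{ B := c.B, et := c.et, e := c.e, j := c.j, h := h', base := c.base, proj := p1 }, rfl,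
    fun A _ u μ x w k1 k2 k3 k4 => h2 A u (μ.comp (sh τ).toRingHom) x
      (Fin.cons (w 0 + ∑ j, μ (.C (τ j)) * w j.succ) fun j => w j.succ) ?_ k2 (fun i => ?_) k4⟩
  · refine k1.trans (Eq.trans ?_ (sp_comp_assoc _ _ _).symm)
    refine congrArg (sp · ≫ c.h) (RingHom.ext fun g => congrArg μ ?_)
    exact (DFunLike.congr_fun (sh_sh (add_neg_cancel τ)) g).symm
  · change μ (sh τ (.X i)) = _
    obtain rfl | ⟨j, rfl⟩ := i.eq_zero_or_eq_succ
    · simp only [sh_zero, map_add, map_sum, map_mul, k3, Fin.cons_zero, mul_add,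
        Finset.mul_sum, mul_left_comm x]
    · rw [sh_succ, k3, Fin.cons_succ]

end BCh2

open BCh2

theorem ne_zero_of_blowup (h : Cellular f π n) (hz : z ≫ π = 𝟙 S) (hρ : IsBlowup z ρ)
    (y : Spec (.of k) ⟶ X') (hy : y ≫ ρ ≫ π ≫ f = 𝟙 _) : n ≠ 0 := by
  obtain ⟨c, -, h0, hc⟩ := h.zero hz ((y ≫ ρ) ≫ π) (by simpa only [Category.assoc] using hy)
    {y ≫ ρ} (Set.finite_singleton _) (by rintro _ rfl; rfl)
  obtain ⟨A, _, u, -, -, w, -, ⟨p, -⟩, -, -, hw, -⟩ := h0.piece hz hρ _ (mem_range (hc _ rfl))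
  obtain ⟨i, -⟩ := exists_notMem hw (show PrimeSpectrum A from p).2.ne_top
  exact i.pos.ne'

theorem cellular_blowup [Infinite k] (h : Cellular f π (n + 1)) (hz : z ≫ π = 𝟙 S)
    (hρ : IsBlowup z ρ) : Cellular f (ρ ≫ π) (n + 1) := by
  intro s hs Y hY hY'
  obtain ⟨c, he, h0, hc⟩ := h.zero hz s hs ((· ≫ ρ) '' Y) (hY.image _)
    (by rintro _ ⟨y, hy, rfl⟩; rw [Category.assoc, hY' y hy])
  have key : ∀ y : Y, ∃ v : Fin (n + 1) → k, v ≠ 0 ∧ ∃ (A : Type) (_ : CommRing A)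
      (u : Spec (.of A) ⟶ X') (μ : MvPolynomial (Fin (n + 1)) c.B →+* A) (x : A)
      (w : Fin (n + 1) → A) (θ : A →+* k), u ≫ ρ = sp μ ≫ c.h ∧ x ∈ nonZeroDivisors A ∧
      (∀ i, μ (.X i) = x * w i) ∧ sp θ ≫ u = y.1 ∧ (∀ b, θ (μ (.C b)) = c.e b) ∧
      ∀ i, θ (w i) = v i := fun ⟨y, hy⟩ => by
    obtain ⟨A, _, u, μ, x, w, _, h1, h2, h3, h4, h5⟩ :=
      h0.piece hz hρ _ (mem_range (hc _ ⟨y, hy, rfl⟩))
    obtain ⟨θ, hθ⟩ := exists_factor y u h1
    obtain ⟨i, hi⟩ := exists_notMem h4 (RingHom.ker_ne_top θ)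
    refine ⟨fun i => θ (w i), fun e => hi (congrFun e i), A, _, u, μ, x, w, θ, h2, h3, h5, hθ,
      DFunLike.congr_fun (sp_cancel c.j (ρ := θ.comp (μ.comp MvPolynomial.C))
        (ρ' := (c.e : c.B →+* k)) ?_), fun _ => rfl⟩
    rw [he, ← hY' y hy, ← hθ, ← sp_comp_assoc, ← sp_comp_assoc, ← c.proj, Category.assoc,
      reassoc_of% h2]
  choose v hv H using key
  have := hY.to_subtype
  obtain ⟨t, ht⟩ := exists_form v hv
  obtain ⟨τ, hτ⟩ : ∃ τ : Fin n → c.B, ∀ j, c.e (τ j) = t j :=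
    ⟨fun j => algebraMap k _ (t j), fun j => c.e.commutes _⟩
  obtain ⟨c', e', h2⟩ := chart h0 hz hρ τ
  refine ⟨c', e'.trans he, fun y hy =>
    c'.has_of_range ?_ ((hY' y hy).trans (e'.trans he).symm)⟩
  obtain ⟨A, _, u, μ, x, w, θ, k1, k2, k3, k4, k5, k6⟩ := H ⟨y, hy⟩
  obtain ⟨A', _, ι, θ', e1, e2, e3⟩ := BCh2.away θ (w := w 0 + ∑ j, μ (.C (τ j)) * w j.succ)
    (by simpa only [map_add, map_sum, map_mul, k5, k6, hτ] using ht ⟨y, hy⟩)
  obtain ⟨r, hr⟩ := h2 A' (sp ι ≫ u) (ι.comp μ) (ι x) (fun i => ι (w i))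
    (by rw [Category.assoc, k1, sp_comp_assoc]) (e3 x k2)
    (fun i => by rw [RingHom.comp_apply, k3, map_mul])
    (by simpa only [map_add, map_sum, map_mul, RingHom.comp_apply] using e2)
  have e : (sp θ' ≫ sp r) ≫ c'.h = y := by rw [Category.assoc, hr, sp_comp_assoc, e1, k4]
  rw [← e]
  exact ⟨_, rfl⟩

end Pool.Agent.MP_e8e0b6_ag.T

end MrgPart3

-- ======== part 4: formerly Pool.Agent.MP_e8e0b6_ag.T.Bun1
section MrgPart4

/-!
The cocycle of a fibre bundle along a chart, and sections of a bundle over families of lines.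
-/

open AlgebraicGeometry CategoryTheory Limits Polynomial IsLocalRing

namespace Pool.Agent.MP_e8e0b6_ag.T

open Z

variable {k A B D E T T' L : Type} [Field k] [CommRing A] [CommRing B] [CommRing D] [CommRing E]
  [CommRing T] [CommRing T'] [Field L] {S X X' W F : Scheme.{0}} {n m : ℕ}
  {f : S ⟶ Spec (.of k)} {π : X ⟶ S} {z : S ⟶ X} {ρ : X' ⟶ X} {φ : F ⟶ Spec (.of k)}
  {G : LinGroup k} {a : G.Action φ}

theorem exists_cocycle [IsDomain D] [Algebra D L] [IsFractionRing D L] (b : FibreBundle a f π)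
    (σ : Spec (.of D) ⟶ S) {ψ : k →+* D} (hσ : σ ≫ f = sp ψ) :
    ∃ (ι : Type) (_ : Finite ι) (c : ι → b.ι) (p : ι → D) (g : ι → ι → Mat G.n L),
      Ideal.span (Set.range p) = ⊤ ∧ (∀ i, p i ≠ 0) ∧
      (∀ i (w : PrimeSpectrum D), p i ∉ w.asIdeal → σ w ∈ b.U (c i)) ∧
      (∀ i j, Coc b (c i) (c j) (sp (algebraMap D L) ≫ σ) (g i j)) ∧
      (∀ i j, Solves G.I ((algebraMap D L).comp ψ) (g i j)) ∧
      (∀ i j i', g i j * g j i' = g i i') ∧
      ∀ i j x y, g i j x y ∈ aw (algebraMap D L) (p i * p j) := by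
  obtain ⟨ι, _, c, p, hp, p0, hc⟩ := exists_cover b σ
  have hr := IsFractionRing.injective D L
  have : ∀ i i', ∃ g : Mat G.n L, Coc b (c i) (c i') (sp (algebraMap D L) ≫ σ) g ∧
      ∀ m m', g m m' ∈ aw (algebraMap D L) (p i * p i') := fun i i' => by
    have hu := ((map_ne_zero_iff _ hr).2 (mul_ne_zero (p0 i) (p0 i'))).isUnit
    have h7 := IsLocalization.Away.algebraMap_isUnit (S := Localization.Away (p i * p i'))
      (p i * p i')
    rw [map_mul] at h7
    obtain ⟨g, hg⟩ := exists_coc (mem_of_unit (hc i) (isUnit_of_mul_isUnit_left h7))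
      (mem_of_unit (hc i') (isUnit_of_mul_isUnit_right h7))
    have := hg.map (IsLocalization.Away.lift _ hu)
    rw [sp_comp_assoc, IsLocalization.Away.lift_comp] at this
    exact ⟨_, this, fun m m' => range_away hu ▸ ⟨_, rfl⟩⟩
  choose g hg hg' using this
  exact ⟨ι, inferInstance, c, p, g, hp, p0, hc, hg,
    fun i i' => (hg i i').solves (by rw [Category.assoc, hσ, sp_comp]),
    fun _ _ _ => (hg _ _).mul (hg _ _) (hg _ _), hg'⟩

theorem sec_bundle [IsAlgClosed k] [CharZero k] [X'.IsSeparated] [X.IsSeparated]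
    [LocallyOfFiniteType ρ] (b : FibreBundle a (π ≫ f) ρ) (y : Spec (.of k) ⟶ F)
    (hy : y ≫ φ = 𝟙 _) (h : Sec f π) : Sec f (ρ ≫ π) := by
  intro A _ _ _ hA x σ hσ
  obtain ⟨A₁, _, _, _, ε, x₁, q, ⟨d, z, hz⟩, o₁, e₁, hq⟩ := h A hA x σ hσ
  have e4 : q ≫ π ≫ f = sp (algebraMap k A₁[X]) := by
    rw [reassoc_of% hq, hσ, sp_comp]
    exact congrArg sp (RingHom.ext fun c => by simp)
  obtain ⟨L, _, _, _⟩ : ∃ (L : Type) (_ : Field L) (_ : Algebra A₁[X] L), IsFractionRing A₁[X] L :=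
    ⟨FractionRing A₁[X], _, _, inferInstance⟩
  obtain ⟨ι, _, c, p, g, hp, p0, hc, hg, h1, h2, h3⟩ := exists_cocycle (L := L) b q e4
  obtain ⟨t, ht, γ, μ, hμ, hγ, h7⟩ := trivialise G z hz x₁ _ (IsFractionRing.injective _ L) p hp p0
    g h1 h2 h3
  obtain ⟨A₂, _, _, _, ε₂, x₂, f1, o₂, f2, f3, f4, -, -⟩ := Et.loc ⟨d, z, hz⟩ x₁ ht
  obtain ⟨Φ, h8, -⟩ := Z.exists_glued e4 hp p0 hc hμ hγ hg h7 (mapRingHom (ε₂ : A₁ →+* A₂))
    (map_injective _ f3) (by rw [coe_mapRingHom, map_C]; exact f4.map C)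
    (sp (algebraMap k A₂[X]) ≫ y) (by
      rw [Category.assoc, hy, Category.comp_id]
      exact congrArg sp (RingHom.ext fun c => by simp))
  refine ⟨A₂, _, inferInstance, _, ε₂.comp ε, x₂, Φ, f1, ?_, by rw [← AlgHom.comp_assoc, f2, e₁], ?_⟩
  · rw [AlgHom.comp_toRingHom, ← sp_comp]
    infer_instance
  · rw [reassoc_of% h8, hq, sp_comp_assoc, mapRingHom_comp, AlgHom.comp_toRingHom]

end Pool.Agent.MP_e8e0b6_ag.T

end MrgPart4

-- ======== part 5: formerly Pool.Agent.MP_e8e0b6_ag.T.Multi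
section MrgPart5

/-!
Cocycles on affine space over a smooth variety are coboundaries near each point of the variety.
-/

open Matrix Polynomial

set_option linter.unusedSectionVars false

namespace Pool.Agent.MP_e8e0b6_ag.T

open Z

namespace Multi

variable {n N : ℕ} {l m k A B D : Type} [CommRing A] [CommRing B] [CommRing D]

theorem mem_range_map {σ : Type} {φ : A →+* B} {q : MvPolynomial σ B}
    (h : ∀ b ∈ q.coeffs, b ∈ φ.range) : q ∈ (MvPolynomial.map φ).range :=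
  MvPolynomial.mem_range_map_iff_coeffs_subset.2 h

theorem frac_mv (σ : Type) {φ : A →+* B} {M : Submonoid A} (h : Frac φ M) :
    Frac (MvPolynomial.map (σ := σ) φ) (M.map MvPolynomial.C) := by
  refine ⟨MvPolynomial.map_injective φ h.inj, ?_, fun z => ?_⟩
  · rintro _ ⟨s, hs, rfl⟩
    simpa using (h.unit s hs).map (MvPolynomial.C (σ := σ))
  · obtain ⟨s, hs, h1⟩ := h.common z.coeffs.finite_toSet
    refine ⟨_, ⟨s, hs, rfl⟩, mem_range_map fun b hb => ?_⟩
    obtain ⟨μ, -, rfl⟩ := MvPolynomial.mem_coeffs_iff.1 hb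
    rw [MvPolynomial.map_C, MvPolynomial.coeff_C_mul]
    by_cases h0 : MvPolynomial.coeff μ z = 0
    · exact ⟨0, by simp [h0]⟩
    · exact h1 _ (MvPolynomial.coeff_mem_coeffs μ h0)

variable (n B) in
/-- Setting all variables to zero. -/
noncomputable def cc : MvPolynomial (Fin n) B →+* MvPolynomial (Fin n) B :=
  MvPolynomial.C.comp MvPolynomial.constantCoeff

theorem cc_zero : cc 0 B = RingHom.id _ :=
  MvPolynomial.ringHom_ext (fun b => by simp [cc]) fun i => i.elim0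

variable (n B) in
/-- Isolating the first variable. -/
noncomputable def fs : MvPolynomial (Fin (n + 1)) B →+* (MvPolynomial (Fin n) B)[X] :=
  (MvPolynomial.finSuccEquiv B n).toRingEquiv.toRingHom

variable (n B) in
/-- The inverse map. -/
noncomputable def sf : (MvPolynomial (Fin n) B)[X] →+* MvPolynomial (Fin (n + 1)) B :=
  (MvPolynomial.finSuccEquiv B n).symm.toRingEquiv.toRingHom

theorem sf_fs : (sf n B).comp (fs n B) = RingHom.id _ :=
  RingHom.ext (MvPolynomial.finSuccEquiv B n).symm_apply_apply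

theorem fs_C (b : B) : fs n B (MvPolynomial.C b) = C (MvPolynomial.C b) :=
  (MvPolynomial.finSuccEquiv B n).commutes b

theorem sf_C (b : B) : sf n B (C (MvPolynomial.C b)) = MvPolynomial.C b :=
  (MvPolynomial.finSuccEquiv B n).symm.commutes b

theorem cc_succ : (sf n B).comp (C.comp ((cc n B).comp ((evalRingHom 0).comp (fs n B)))) =
    cc (n + 1) B := by
  refine MvPolynomial.ringHom_ext (fun b => by simp [cc, fs_C, sf_C]) fun i => ?_
  refine i.cases ?_ fun j => ?_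
  · have : fs n B (MvPolynomial.X 0) = X := MvPolynomial.finSuccEquiv_X_zero
    simp [cc, this]
  · have : fs n B (MvPolynomial.X j.succ) = C (MvPolynomial.X j) := MvPolynomial.finSuccEquiv_X_succ
    simp [cc, this]

variable [Field k] [Algebra k B]

attribute [local instance] MvPolynomial.algebraMvPolynomial in
theorem et_mv (h : Et k B) (n : ℕ) : Et k (MvPolynomial (Fin n) B) := by
  obtain ⟨d, z, hz⟩ := h
  let e := (MvPolynomial.renameEquiv k (finSumFinEquiv (m := n) (n := d)).symm).trans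
    (MvPolynomial.sumAlgEquiv k (Fin n) (Fin d))
  refine ⟨n + d, (MvPolynomial.mapAlgHom z).comp e.toAlgHom,
    RingHom.Etale.stableUnderComposition _ _ (RingHom.Etale.of_bijective e.bijective) ?_⟩
  let _ := z.toRingHom.toAlgebra
  exact RingHom.Etale.isStableUnderBaseChange (MvPolynomial (Fin d) k) B
    (MvPolynomial (Fin n) (MvPolynomial (Fin d) k)) (MvPolynomial (Fin n) B) hz

variable [IsAlgClosed k]

theorem max_eq (h : Et k B) (p : Ideal B) [hp : p.IsMaximal] : ∃ θ : B →ₐ[k] k, p = kerPt θ := by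
  have := h.finiteType
  obtain ⟨θ, hθ⟩ := exists_point (k := k) p hp.ne_top
  exact ⟨θ, hp.eq_of_le (Ideal.IsMaximal.ne_top inferInstance) hθ⟩

variable [CharZero k] [IsDomain B]

theorem conj_one (h : Et k B) (e : Mat N B[X]) (he : e * e = e) : Conj e (e.map (c0 B)) := by
  refine MP_e8e0b6_ag.quillen e fun p _ => ?_
  obtain ⟨θ, rfl⟩ := max_eq h p
  obtain ⟨d, z, hz⟩ := h
  have hA := lindel z hz θ (Localization.AtPrime (kerPt θ))
  have h1 : ∀ x : Mat N (Localization.AtPrime (kerPt θ))[X], x * x = x → Conj x (x.map (c0 _)) :=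
    fun x hx => conj_c0 (hA _ x hx) (hA _ _ (by rw [_root_.sub_mul, mul_sub, mul_sub, hx]; simp))
  exact h1 _ (by rw [← Matrix.map_mul, he])

theorem conj_mv (h : Et k B) (e : Mat N (MvPolynomial (Fin n) B)) (he : e * e = e) :
    Conj e (e.map (cc n B)) := by
  induction n with
  | zero =>
    rw [cc_zero, RingHom.coe_id, Matrix.map_id]
    exact .refl _
  | succ n ih =>
    have h1 := (conj_one (et_mv h n) (e.map (fs n B)) (by rw [← Matrix.map_mul, he])).map (sf n B)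
    have h2 := ((ih (e.map ((evalRingHom 0).comp (fs n B)))
      (by rw [← Matrix.map_mul, he])).map C).map (sf n B)
    simp only [Matrix.map_map, ← RingHom.coe_comp, c0, RingHom.comp_assoc] at h1 h2
    rw [sf_fs, RingHom.coe_id, Matrix.map_id] at h1
    rw [cc_succ] at h2
    exact h1.trans h2

theorem allFree_mv (h : Et k B) (ev : B →ₐ[k] k) (n : ℕ) :
    AllFree (MvPolynomial (Fin n) (Localization.AtPrime (kerPt ev))) := by
  intro N e he
  have F := Frac.of_isLocalization (B := Localization.AtPrime (kerPt ev)) _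
    (kerPt ev).primeCompl_le_nonZeroDivisors
  obtain ⟨s, hs, h1⟩ := F.common
    (S := ⋃ p : Fin N × Fin N, ((e p.1 p.2).coeffs : Set (Localization.AtPrime (kerPt ev))))
    (Set.finite_iUnion fun p => Finset.finite_toSet _)
  obtain ⟨μ, -, h2, h3⟩ := F.away hs
  have : ∀ i j, e i j ∈ (MvPolynomial.map μ).range := fun i j =>
    mem_range_map fun b hb => h3 _ (h1 _ (Set.mem_iUnion.2 ⟨(i, j), hb⟩))
  choose x hx using this
  obtain rfl : (Matrix.of x).map (MvPolynomial.map μ) = e := by ext1 i j; exact hx i j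
  have s0 : s ≠ 0 := fun e => hs (e ▸ zero_mem _)
  have := IsLocalization.isDomain_of_le_nonZeroDivisors (Localization.Away s)
    (powers_le_nonZeroDivisors_of_noZeroDivisors s0)
  have h4 := (conj_mv (h.away s (Localization.Away s)) (Matrix.of x)
    (Matrix.map_injective (MvPolynomial.map_injective μ h2.inj) (by
      change Matrix.map _ _ = Matrix.map _ _
      rw [Matrix.map_mul, he]))).map (MvPolynomial.map μ)
  refine RF.of_conj ?_ h4.symm
  have h5 := (allFree_of_local _ _ (show ((Matrix.of x).map (MvPolynomial.map μ)).map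
    MvPolynomial.constantCoeff * _ = _ by rw [← Matrix.map_mul, he])).map
    (MvPolynomial.C (σ := Fin n))
  have e1 : (MvPolynomial.map μ).comp (cc n _) = MvPolynomial.C.comp
      (MvPolynomial.constantCoeff.comp (MvPolynomial.map (σ := Fin n) μ)) :=
    MvPolynomial.ringHom_ext (fun b => by simp [cc]) fun i => by simp [cc]
  simp only [Matrix.map_map, ← RingHom.coe_comp] at h5 ⊢
  rwa [e1]

/-- Locally trivial near each rational point. -/
def Lt [Algebra k A] (Φ₀ : Form N l m k) (Φ : Form N l m A) : Prop :=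
  ∀ θ : A →ₐ[k] k, ∃ f, θ f ≠ 0 ∧ IsoOn f (bc (algebraMap k _) Φ₀) Φ

omit [IsAlgClosed k] [CharZero k] in
theorem Lt.map [Algebra k A] [Algebra k D] {Φ₀ : Form N l m k} {Φ : Form N l m A} (h : Lt Φ₀ Φ)
    (ψ : A →+* D) (hψ : ψ.comp (algebraMap k A) = algebraMap k D) : Lt Φ₀ (bc ψ Φ) := fun θ => by
  obtain ⟨f, hf, H⟩ := h (θ.comp ⟨ψ, RingHom.congr_fun hψ⟩)
  have := H.map ψ
  rw [bc_bc, hψ] at this
  exact ⟨ψ f, hf, this⟩

variable [Finite m]

theorem iso_one (h : Et k B) {Φ₀ : Form N l m k} {Φ : Form N l m B[X]} (H : Lt Φ₀ Φ) :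
    Iso Φ (bc (c0 B) Φ) := by
  refine Z.quillen Φ fun p _ => ?_
  obtain ⟨θ, rfl⟩ := max_eq h p
  obtain ⟨d, z, hz⟩ := h
  obtain ⟨t, ht, h1⟩ := bass_quillen z hz θ Φ₀ Φ H
  have h2 := h1 _ (mapRingHom (algebraMap B (Localization.AtPrime (kerPt θ)))) (by
    rw [coe_mapRingHom, map_C]
    exact (IsLocalization.map_units _ (⟨t, ht⟩ : (kerPt θ).primeCompl)).map C)
  have h3 := h2.map (c0 _)
  have e : bc (c0 _) (bc (mapRingHom (algebraMap B (Localization.AtPrime (kerPt θ))))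
      (bc (algebraMap k B[X]) Φ₀)) = bc (mapRingHom (algebraMap B _)) (bc (algebraMap k _) Φ₀) := by
    simp only [bc_bc]
    congr 1
    ext1 a
    simp [c0]
  rw [e] at h3
  exact h2.symm.trans h3

theorem iso_mv (h : Et k B) {Φ₀ : Form N l m k} {Φ : Form N l m (MvPolynomial (Fin n) B)}
    (H : Lt Φ₀ Φ) : Iso Φ (bc (cc n B) Φ) := by
  induction n with
  | zero =>
    rw [cc_zero, bc_id]
    exact .refl _
  | succ n ih =>
    have H1 := H.map (fs n B) (RingHom.ext fun a => fs_C (algebraMap k B a))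
    have h1 := (iso_one (et_mv h n) H1).map (sf n B)
    have h2 := ((ih (H1.map (evalRingHom 0) (by ext1 a; simp))).map C).map (sf n B)
    simp only [bc_bc, c0, RingHom.comp_assoc] at h1 h2
    rw [sf_fs, bc_id] at h1
    rw [cc_succ] at h2
    exact h1.trans h2

theorem bq_mv (h : Et k B) (ev : B →ₐ[k] k) (Φ₀ : Form N l m k)
    (Φ : Form N l m (MvPolynomial (Fin n) B)) (H : Lt Φ₀ Φ) :
    ∃ t, ev t ≠ 0 ∧ IsoOn (MvPolynomial.C t) (bc (algebraMap k _) Φ₀) Φ := by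
  obtain ⟨t, ht, h1⟩ := H.map MvPolynomial.constantCoeff
    (RingHom.ext fun a => MvPolynomial.constantCoeff_C _ (algebraMap k B a)) ev
  have h2 := h1.map (MvPolynomial.C (σ := Fin n))
  rw [bc_bc, bc_bc] at h2
  exact ⟨t, ht, h2.trans ((iso_mv h H).symm.on _)⟩

theorem triv_form {L : Type} [Field L] (hB : Et k B) (ev : B →ₐ[k] k)
    (r : MvPolynomial (Fin n) B →+* L) (hr : Function.Injective r) {ι : Type} [Finite ι]
    (f : ι → MvPolynomial (Fin n) B) (hf : Ideal.span (Set.range f) = ⊤) (f0 : ∀ i, f i ≠ 0)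
    (Φ₀ : Form N l m k) (x : ι → ι → Mat N L) (hx : ∀ i j i', x i j * x j i' = x i i')
    (h1 : ∀ i, x i i = 1) (hd : ∀ i j a b, x i j a b ∈ aw r (f i * f j))
    (H : ∀ i j, Hom (x i j) (bc (r.comp (algebraMap k _)) Φ₀) (bc (r.comp (algebraMap k _)) Φ₀)) :
    ∃ t, ev t ≠ 0 ∧ ∃ γ γ' : ι → Mat N L, (∀ i j, x i j * γ j = γ i) ∧ ∀ i, γ' i * γ i = 1 ∧
      (∀ a b, γ i a b ∈ aw r (MvPolynomial.C t * f i)) ∧
      (∀ a b, γ' i a b ∈ aw r (MvPolynomial.C t * f i)) ∧
      Hom (γ i) (bc (r.comp (algebraMap k _)) Φ₀) (bc (r.comp (algebraMap k _)) Φ₀) := by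
  obtain ⟨_, ⟨s, hs, rfl⟩, y, y', h2, h3, h4⟩ := frame r hr f hf x hx h1 hd _
    (frac_mv (Fin n) (Frac.of_isLocalization (B := Localization.AtPrime (kerPt ev)) _
      (kerPt ev).primeCompl_le_nonZeroDivisors)) (allFree_mv hB ev n)
  have s0 : s ≠ 0 := fun e => hs (e ▸ zero_mem _)
  obtain ⟨B₁, _, _, _, _, _⟩ : ∃ (D : Type) (_ : CommRing D) (_ : Algebra B D) (_ : Algebra k D),
      IsScalarTower k B D ∧ IsLocalization.Away s D :=
    ⟨Localization.Away s, _, _, _, inferInstance, inferInstance⟩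
  have le := powers_le_nonZeroDivisors_of_noZeroDivisors s0
  have := IsLocalization.isDomain_of_le_nonZeroDivisors B₁ le
  let ε : MvPolynomial (Fin n) B →ₐ[k] MvPolynomial (Fin n) B₁ :=
    MvPolynomial.mapAlgHom (IsScalarTower.toAlgHom k B B₁)
  have F1 : Frac (ε : MvPolynomial (Fin n) B →+* MvPolynomial (Fin n) B₁)
      (.powers (MvPolynomial.C s)) := by
    have := frac_mv (Fin n) (Frac.of_isLocalization (B := B₁) _ le)
    rwa [Submonoid.map_powers] at this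
  have hu : IsUnit ((r.comp MvPolynomial.C) s) :=
    ((map_ne_zero_iff r hr).2 (MvPolynomial.C_ne_zero.2 s0)).isUnit
  obtain ⟨r₁, rfl⟩ : ∃ r₁ : MvPolynomial (Fin n) B₁ →+* L, r₁.comp ε = r :=
    ⟨MvPolynomial.eval₂Hom (IsLocalization.Away.lift s hu) fun i => r (MvPolynomial.X i),
      MvPolynomial.ringHom_ext (fun b => by simp [ε]) fun i => by simp [ε]⟩
  have hr₁ := F1.inj_of_comp hr
  simp only [RingHom.comp_assoc, ε.comp_algebraMap] at H ⊢
  replace h4 : ∀ i, (∀ a b, y i a b ∈ aw r₁ (ε (f i))) ∧ ∀ a b, y' i a b ∈ aw r₁ (ε (f i)) :=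
    fun i => ⟨fun a b => (aw_comp F1 r₁ _).le ((h4 i a b).imp fun _ h => h.1),
      fun a b => (aw_comp F1 r₁ _).le ((h4 i a b).imp fun _ h => h.2)⟩
  have hf₁ : Ideal.span (Set.range fun i => ε (f i)) = ⊤ := by
    rw [Set.range_comp' ε, ← Ideal.map_span, hf, Ideal.map_top]
  have hu : ∀ i, IsUnit (r₁ (ε (f i))) := fun i => ((map_ne_zero_iff _ hr).2 (f0 i)).isUnit
  obtain ⟨i₀⟩ : Nonempty ι := by
    by_contra! h
    rw [Set.range_eq_empty, Ideal.span_empty] at hf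
    exact bot_ne_top hf
  obtain ⟨Φ, h5⟩ := exists_hom' (h2 i₀) (bc (r₁.comp (algebraMap k _)) Φ₀)
  have h6 := fun j => h3 i₀ j ▸ (H i₀ j).mul h5
  obtain ⟨Φ, rfl⟩ := Z.exists_bc (φ := r₁) (Ψ := Φ) fun a b μ => mem_range_of_aw hf₁ fun i => by
    obtain ⟨h7, h8⟩ := h4 i
    rw [← range_away (hu i)] at h7 h8 ⊢
    obtain ⟨w, hw, e⟩ := exists_mat (away_injective hr₁ (hu i)) (h2 i) h7 h8
    obtain ⟨Ψ, h9⟩ := exists_hom hw
      (bc ((algebraMap (MvPolynomial (Fin n) B₁) _).comp (algebraMap k _)) Φ₀)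
    have := h9.map (IsLocalization.Away.lift _ (hu i))
    rw [e, bc_bc, ← RingHom.comp_assoc, IsLocalization.Away.lift_comp] at this
    rw [(h6 i).unique this (isUnit_det_of_left_inverse (h2 i)), coeff_bc]
    exact ⟨_, rfl⟩
  let ev₁ : B₁ →ₐ[k] k := IsLocalization.liftAlgHom (M := .powers s) (f := ev) fun y => by
    obtain ⟨_, i, rfl⟩ := y
    exact Ne.isUnit (by rw [map_pow]; exact pow_ne_zero _ hs)
  have e1 : ∀ b, ev₁ (algebraMap B B₁ b) = ev b := IsLocalization.lift_eq _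
  obtain ⟨t₁, h7, h8⟩ := bq_mv (hB.away s B₁) ev₁ Φ₀ Φ fun θ => by
    obtain ⟨i, hi⟩ : ∃ i, θ (ε (f i)) ≠ 0 := by
      by_contra! h
      have : (⊤ : Ideal (MvPolynomial (Fin n) B₁)) ≤ RingHom.ker θ := hf₁ ▸ Ideal.span_le.2 (by
        rintro _ ⟨i, rfl⟩; exact h i)
      exact one_ne_zero ((map_one θ).symm.trans (this trivial))
    exact ⟨_, hi, isoOn_of_aw hr₁ (hu i) (h2 i) (h4 i).1 (h4 i).2 (by rw [bc_bc]; exact h6 i)⟩
  obtain ⟨w, w', h9, h10, h11, h12⟩ := h8.exists_aw r₁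
    ((map_ne_zero_iff _ hr₁).2
      (MvPolynomial.C_ne_zero.2 fun e => h7 (by rw [e, map_zero]))).isUnit
  obtain ⟨j, t, ht⟩ := IsLocalization.Away.surj s t₁
  have h13 : ∀ i, aw r₁ (MvPolynomial.C t₁) ⊔ aw r₁ (ε (f i)) ≤
      aw (r₁.comp ε) (MvPolynomial.C (s * t) * f i) := fun i => by
    rw [map_mul, mul_assoc, aw_comp F1, map_mul]
    refine sup_le (aw_mono _ (Dvd.dvd.mul_right ?_ _)) (aw_mono _ (dvd_mul_left _ _))
    exact ⟨MvPolynomial.C (algebraMap B B₁ s ^ j), by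
      rw [← map_mul, ht]; exact MvPolynomial.map_C _ _⟩
  rw [bc_bc] at h12
  refine ⟨s * t, ?_, fun i => y' i * w, fun i => w' * y i, fun i j => ?_, fun i => ⟨?_,
    fun a b => h13 i ?_, fun a b => h13 i ?_, h12.mul ((h6 i).inv' (h2 i))⟩⟩
  · rw [map_mul, ← e1 t, ← ht, map_mul, map_pow, e1]
    exact mul_ne_zero hs (mul_ne_zero h7 (pow_ne_zero _ hs))
  · rw [← mul_assoc, ← one_mul (x i j), ← h2 i, mul_assoc (y' i), h3, mul_assoc (y' i),
      mul_eq_one_comm.1 (h2 j), mul_one]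
  · rw [mul_assoc, ← mul_assoc (y i), mul_eq_one_comm.1 (h2 i), one_mul, h9]
  · simp only [mul_apply]
    exact sum_mem fun c _ => mul_mem (le_sup_right (a := aw r₁ (.C t₁)) ((h4 i).2 _ _))
      (le_sup_left (b := aw r₁ (ε (f i))) (h10 _ _))
  · simp only [mul_apply]
    exact sum_mem fun c _ => mul_mem (le_sup_left (b := aw r₁ (ε (f i))) (h11 _ _))
      (le_sup_right (a := aw r₁ (.C t₁)) ((h4 i).1 _ _))

end Multi

variable {k B L : Type} [Field k] [CommRing B] [Field L] {n : ℕ}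

/-- A cocycle with values in a linear algebraic group on affine space over a smooth variety is a
coboundary above a neighbourhood of each point. -/
theorem trivialise_mv [IsAlgClosed k] [CharZero k] [IsDomain B] [Algebra k B] (G : LinGroup k)
    (hB : Et k B) (ev : B →ₐ[k] k) (r : MvPolynomial (Fin n) B →+* L) (hr : Function.Injective r)
    {ι : Type} [Finite ι] (p : ι → MvPolynomial (Fin n) B) (hp : Ideal.span (Set.range p) = ⊤)
    (p0 : ∀ i, p i ≠ 0) (g : ι → ι → Mat G.n L)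
    (hg : ∀ i j, Solves G.I (r.comp (algebraMap k _)) (g i j))
    (hc : ∀ i j i', g i j * g j i' = g i i') (hd : ∀ i j a b, g i j a b ∈ aw r (p i * p j)) :
    ∃ t, ev t ≠ 0 ∧ ∃ (γ : ∀ i, Mat G.n (Localization.Away (MvPolynomial.C t * p i)))
      (μ : ∀ i, Localization.Away (MvPolynomial.C t * p i) →+* L),
      (∀ i, (μ i).comp (algebraMap _ _) = r) ∧
      (∀ i, Solves G.I ((algebraMap (MvPolynomial (Fin n) B) _).comp (algebraMap k _)) (γ i)) ∧
      ∀ i j, g i j * (γ j).map (μ j) = (γ i).map (μ i) := by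
  obtain ⟨N, e, Φ₀, E⟩ := exists_form G
  have g1 := fun i => eq_one_of_idem (hg i i).1 (hc i i i)
  have : ∀ i j, ∃ x : Mat N L, IsUnit x.det ∧ (∀ a b, x a b ∈ aw r (p i * p j)) ∧
      Hom x (bc (r.comp (algebraMap k _)) Φ₀) (bc (r.comp (algebraMap k _)) Φ₀) ∧
      x.submatrix e e = g i j := fun i j => by
    have hu : IsUnit (r (p i * p j)) :=
      ((map_ne_zero_iff _ hr).2 (mul_ne_zero (p0 i) (p0 j))).isUnit
    have h1 := hd i j
    have h2 := hd j i
    rw [mul_comm] at h2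
    rw [← range_away hu] at h1 h2 ⊢
    obtain ⟨w, h3, h4⟩ := exists_solves (I := G.I)
      (φ := (algebraMap (MvPolynomial (Fin n) B) _).comp (algebraMap k _)) (away_injective hr hu)
      ((hc j i j).trans (g1 j)) h1 h2
      (by rw [← RingHom.comp_assoc, IsLocalization.Away.lift_comp]; exact hg i j)
    obtain ⟨x, h5, h6, rfl⟩ := (E _ _).1 w h3
    have := h6.map (IsLocalization.Away.lift _ hu)
    rw [bc_bc, ← RingHom.comp_assoc, IsLocalization.Away.lift_comp] at this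
    exact ⟨_, isUnit_det_map h5 _, fun a b => ⟨_, rfl⟩, this, h4⟩
  choose x h1 h2 h3 h4 using this
  have E3 := (E L (r.comp (algebraMap k _))).2.2
  have hx : ∀ i j i', x i j * x j i' = x i i' := fun i j i' =>
    (E3 _ _ ((h3 _ _).mul (h3 _ _)) (h3 _ _)).2 (by rw [(E3 _ _ (h3 _ _) (h3 _ _)).1, h4, h4, h4, hc])
  obtain ⟨t, ht, γ, γ', h5, h6⟩ := Multi.triv_form hB ev r hr p hp p0 Φ₀ x hx
    (fun i => eq_one_of_idem (h1 i i) (hx i i i)) h2 h3
  have hu : ∀ i, IsUnit (r (MvPolynomial.C t * p i)) := fun i => ((map_ne_zero_iff _ hr).2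
    (mul_ne_zero (MvPolynomial.C_ne_zero.2 fun e => ht (by rw [e, map_zero])) (p0 i))).isUnit
  have : ∀ i, ∃ w : Mat N (Localization.Away (MvPolynomial.C t * p i)), IsUnit w.det ∧
      w.map (IsLocalization.Away.lift _ (hu i)) = γ i := fun i => by
    obtain ⟨h7, h8, h9, -⟩ := h6 i
    rw [← range_away (hu i)] at h8 h9
    exact exists_mat (away_injective hr (hu i)) h7 h8 h9
  choose w h7 h8 using this
  refine ⟨t, ht, fun i => (w i).submatrix e e, fun i => IsLocalization.Away.lift _ (hu i),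
    fun i => IsLocalization.Away.lift_comp _ _, fun i => (E _ _).2.1 _ (h7 i)
      (.of_map (away_injective hr (hu i)) ?_), fun i j => ?_⟩
  · rw [h8, bc_bc, ← RingHom.comp_assoc, IsLocalization.Away.lift_comp]
    exact (h6 i).2.2.2
  · rw [← submatrix_map, ← submatrix_map, h8, h8, ← h4, ← (E3 _ _ (h3 _ _) (h6 j).2.2.2).1, h5]

end Pool.Agent.MP_e8e0b6_ag.T

end MrgPart5

-- ======== part 6: formerly Pool.Agent.MP_e8e0b6_ag.T.Bun2
section MrgPart6

/-!
Charts of a fibre bundle whose base and fibre are covered by affine spaces.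
-/

open AlgebraicGeometry CategoryTheory Limits Polynomial IsLocalRing

namespace Pool.Agent.MP_e8e0b6_ag.T

open Z

variable {k A B D E T T' L : Type} [Field k] [CommRing A] [CommRing B] [CommRing D] [CommRing E]
  [CommRing T] [CommRing T'] [Field L] {S X X' W F : Scheme.{0}} {n m : ℕ}
  {f : S ⟶ Spec (.of k)} {π : X ⟶ S} {z : S ⟶ X} {ρ : X' ⟶ X} {φ : F ⟶ Spec (.of k)}
  {G : LinGroup k} {a : G.Action φ}

namespace Bun2

theorem actR_inv' {ψ : k →+* T} {g : Mat G.n T} (hg : Solves G.I ψ g) (χ : T →+* T')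
    {y : Spec (.of T') ⟶ F} (hy : y ≫ φ = sp (χ.comp ψ)) :
    actR a (g⁻¹.map χ) (actR a (g.map χ) y) = y := by
  rw [← actR_mul hy ((G.inv_mem _ _ _ hg).map χ) (hg.map χ), ← Matrix.map_mul,
    Matrix.nonsing_inv_mul _ hg.1, actR, Matrix.map_one _ (map_zero _) (map_one _),
    Matrix.map_one _ (map_zero _) (map_one _), a.one]

theorem factor (j : Spec (.of A) ⟶ X) [IsOpenImmersion j] (g : Spec (.of T) ⟶ X)
    (h : ∀ w, g w ∈ Set.range j) : ∃ r : A →+* T, sp r ≫ j = g := by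
  obtain ⟨r, hr⟩ := sp_surj (IsOpenImmersion.lift j g (by rintro _ ⟨w, rfl⟩; exact h w))
  exact ⟨r, by rw [hr, IsOpenImmersion.lift_fac]⟩

theorem exists_aff (x : X) (V : X.Opens) (hx : x ∈ V) :
    ∃ (A : Type) (_ : CommRing A) (j : Spec (.of A) ⟶ X) (_ : IsOpenImmersion j),
      x ∈ Set.range j ∧ Set.range j ⊆ V := by
  obtain ⟨_, ⟨U, hU, rfl⟩, hxU, hle⟩ := X.isBasis_affineOpens.exists_subset_of_mem_open hx V.2
  have hj : Set.range hU.fromSpec = U := hU.range_fromSpec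
  exact ⟨Γ(X, U), _, hU.fromSpec, inferInstanceAs (IsOpenImmersion hU.fromSpec), hj ▸ hxU,
    hj ▸ hle⟩

theorem exists_inv (g : A) : ∃ (E : Type) (_ : CommRing E) (l : A →+* E)
    (_ : IsOpenImmersion (sp l)), IsUnit (l g) ∧
      ∀ w : PrimeSpectrum A, g ∉ w.asIdeal → ∃ w', sp l w' = w := by
  refine ⟨Localization.Away g, _, algebraMap _ _, inferInstance,
    IsLocalization.Away.algebraMap_isUnit g, fun w hw => ?_⟩
  have h := PrimeSpectrum.localization_away_comap_range (Localization.Away g) g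
  exact (h.ge hw : w ∈ Set.range _)

theorem exists_test (w : PrimeSpectrum A) : ∃ (T : Type) (_ : CommRing T) (_ : IsLocalRing T)
    (θ : A →+* T), sp θ (closedPoint T) = w :=
  ⟨Localization.AtPrime w.asIdeal, _, inferInstance, algebraMap _ _,
    PrimeSpectrum.ext Localization.AtPrime.under_maximalIdeal⟩

/-- The product chart. -/
theorem prod_chart {D₁ K D' : Type} [CommRing D₁] [CommRing K] [CommRing D'] [IsDomain D']
    [X'.IsSeparated] [X.IsSeparated] [LocallyOfFiniteType ρ] {fX : X ⟶ Spec (.of k)}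
    {b : FibreBundle a fX ρ} [Algebra D L] [IsFractionRing D L] {σ : Spec (.of D) ⟶ X}
    {ψ : k →+* D} (hσ : σ ≫ fX = sp ψ) {ι : Type} {c : ι → b.ι} {u : D} {p : ι → D}
    (hp : Ideal.span (Set.range p) = ⊤) (p0 : ∀ i, p i ≠ 0)
    (hU : ∀ i (w : PrimeSpectrum D), p i ∉ w.asIdeal → σ w ∈ b.U (c i))
    {γ : ∀ i, Mat G.n (Localization.Away (u * p i))}
    {μ : ∀ i, Localization.Away (u * p i) →+* L}
    (hμ : ∀ i, (μ i).comp (algebraMap _ _) = algebraMap D L)
    (hγ : ∀ i, Solves G.I ((algebraMap D _).comp ψ) (γ i)) {g : ι → ι → Mat G.n L}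
    (hg : ∀ i j, Coc b (c i) (c j) (sp (algebraMap D L) ≫ σ) (g i j))
    (h : ∀ i j, g i j * (γ j).map (μ j) = (γ i).map (μ i)) (ε : D →+* D₁)
    (hε : Function.Injective ε) (hu : IsUnit (ε u)) (h₁ : Spec (.of D₁) ⟶ X) [IsOpenImmersion h₁]
    (e₁ : h₁ = sp ε ≫ σ) (τ₀ : Spec (.of K) ⟶ F) [IsOpenImmersion τ₀] {ψK : k →+* K}
    (hτ : τ₀ ≫ φ = sp ψK) (α : D₁ →+* D') (hα : Function.Injective α) (κ : K →+* D')
    (hκ : κ.comp ψK = (α.comp ε).comp ψ)
    (ex : ∀ (T : Type) [CommRing T] (μ₁ : D₁ →+* T) (ν : K →+* T),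
      ν.comp ψK = (μ₁.comp ε).comp ψ → ∃ r : D' →+* T, r.comp α = μ₁ ∧ r.comp κ = ν)
    (un : ∀ (T : Type) [CommRing T] (r r' : D' →+* T), r.comp α = r'.comp α →
      r.comp κ = r'.comp κ → r = r') :
    ∃ Φ : Spec (.of D') ⟶ X', IsOpenImmersion Φ ∧ Φ ≫ ρ = sp α ≫ h₁ ∧
      ∀ i (T : Type) [CommRing T] (q : Spec (.of T) ⟶ X') (μ₁ : D₁ →+* T)
        (χ : Localization.Away (u * p i) →+* T) (y₀ : Spec (.of T) ⟶ F) (ν : K →+* T),
        q ≫ ρ = sp μ₁ ≫ h₁ → χ.comp (algebraMap _ _) = μ₁.comp ε → Crd b (c i) q y₀ →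
        sp ν ≫ τ₀ = actR a ((γ i)⁻¹.map χ) y₀ → ∃ r, sp r ≫ Φ = q := by
  obtain ⟨Φ, h8, h9⟩ := Z.exists_glued hσ hp p0 hU hμ hγ hg h (α.comp ε) (hα.comp hε) (hu.map α)
    (sp κ ≫ τ₀) (by rw [Category.assoc, hτ, sp_comp, hκ])
  have h8' : Φ ≫ ρ = sp α ≫ h₁ := by rw [h8, e₁, sp_comp_assoc]
  have hδ := fun i => G.inv_mem _ _ _ (hγ i)
  have ov : ∀ {i} {T : Type} [CommRing T] {q : Spec (.of T) ⟶ X'} {μ₁ : D₁ →+* T}
      {χ : Localization.Away (u * p i) →+* T} {y₀ : Spec (.of T) ⟶ F},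
      q ≫ ρ = sp μ₁ ≫ h₁ → χ.comp (algebraMap _ _) = μ₁.comp ε → Crd b (c i) q y₀ →
      y₀ ≫ φ = sp (χ.comp ((algebraMap D _).comp ψ)) := fun e1 e2 e3 => by
    rw [e3.over, reassoc_of% e1, e₁, Category.assoc, hσ, sp_comp, sp_comp,
      ← RingHom.comp_assoc _ _ _, ← RingHom.comp_assoc _ _ _, e2]
  have ov' : ∀ {i} {T : Type} [CommRing T] {r : D' →+* T}
      {χ : Localization.Away (u * p i) →+* T}, χ.comp (algebraMap _ _) = r.comp (α.comp ε) →
      (sp r ≫ sp κ ≫ τ₀) ≫ φ = sp (χ.comp ((algebraMap D _).comp ψ)) := fun e => by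
    rw [Category.assoc, Category.assoc, hτ, sp_comp, sp_comp, hκ, ← RingHom.comp_assoc _ _ _,
      ← e, RingHom.comp_assoc]
  have key : ∀ i (T : Type) [CommRing T] (q : Spec (.of T) ⟶ X') (μ₁ : D₁ →+* T)
      (χ : Localization.Away (u * p i) →+* T) (y₀ : Spec (.of T) ⟶ F) (ν : K →+* T),
      q ≫ ρ = sp μ₁ ≫ h₁ → χ.comp (algebraMap _ _) = μ₁.comp ε → Crd b (c i) q y₀ →
      sp ν ≫ τ₀ = actR a ((γ i)⁻¹.map χ) y₀ → ∃ r, sp r ≫ Φ = q := by
    intro i T _ q μ₁ χ y₀ ν e1 e2 e3 e4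
    have e5 := ov e1 e2 e3
    obtain ⟨r, r1, r2⟩ := ex T μ₁ ν (sp_inj (by
      rw [← sp_comp, ← hτ, ← Category.assoc, e4, actR_over e5 ((hδ i).map χ), ← e2,
        RingHom.comp_assoc]))
    have e6 := h9 i T r χ (by rw [e2, ← r1, RingHom.comp_assoc])
    rw [sp_comp_assoc, r2, e4, actR_inv (hγ i) _ e5] at e6
    exact ⟨r, e6.unique e3 (by rw [Category.assoc, h8', sp_comp_assoc, r1, e1])⟩
  refine ⟨Φ, isOpenImmersion_of_local Φ (fun L' _ χ χ' _ e => ?_) fun w => ?_, h8', key⟩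
  · have e1 : χ.comp α = χ'.comp α := sp_cancel h₁ (by
      rw [← sp_comp_assoc, ← sp_comp_assoc, ← h8', reassoc_of% e])
    obtain ⟨i, hi⟩ := exists_notMem hp (RingHom.ker_ne_top (χ.comp (α.comp ε)))
    obtain ⟨ω, e2⟩ := exists_away (u * p i) (χ.comp (α.comp ε)) (by
      rw [map_mul]; exact ((hu.map α).map χ).mul (Ne.isUnit hi))
    have e3 : ω.comp (algebraMap _ _) = χ'.comp (α.comp ε) := by
      rw [e2, ← RingHom.comp_assoc, e1, RingHom.comp_assoc]
    have e4 := (h9 i _ χ ω e2).eq (e ▸ h9 i _ χ' ω e3)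
    have e5 := congrArg (actR a ((γ i)⁻¹.map ω)) e4
    rw [actR_inv' (hγ i) _ (ov' e2), actR_inv' (hγ i) _ (ov' e3), sp_comp_assoc,
      sp_comp_assoc] at e5
    exact un _ _ _ e1 (sp_cancel τ₀ e5)
  · obtain ⟨i, hi⟩ := exists_notMem hp (P := w.asIdeal.comap (α.comp ε))
      (Ideal.comap_ne_top _ w.2.ne_top)
    obtain ⟨E, _, l, _, l1, l2⟩ := exists_inv (ε (p i))
    obtain ⟨A₀, _, u₀, _, a1, a2⟩ := exists_aff (Φ w) (ρ ⁻¹ᵁ (sp l ≫ h₁).opensRange) (by
      obtain ⟨w', hw'⟩ := l2 (sp α w) hi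
      refine ⟨w', ?_⟩
      rw [Scheme.Hom.comp_apply, hw', ← Scheme.Hom.comp_apply, ← h8', Scheme.Hom.comp_apply])
    obtain ⟨μE, e1⟩ := factor (sp l ≫ h₁) (u₀ ≫ ρ) fun x => a2 ⟨x, rfl⟩
    rw [sp_comp_assoc] at e1
    have u1 : IsUnit (((μE.comp l).comp ε) (p i)) := l1.map μE
    obtain ⟨χ₀, e2⟩ := exists_away (u * p i) ((μE.comp l).comp ε) (by
      rw [map_mul]; exact (hu.map (μE.comp l)).mul u1)
    obtain ⟨y₀, e3⟩ : ∃ y, Crd b (c i) u₀ y := exists_crd (by
      rw [← e1, e₁, sp_comp_assoc]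
      exact mem_of_unit (hU i) u1)
    have e4 := ov e1.symm e2 e3
    obtain ⟨T, _, _, θ, hθ⟩ := exists_test w
    obtain ⟨lam, e5⟩ := exists_factor (sp θ ≫ Φ) u₀ (by rwa [Scheme.Hom.comp_apply, hθ])
    have e6 : lam.comp (μE.comp l) = θ.comp α := sp_cancel h₁ (by
      rw [← sp_comp_assoc, e1, reassoc_of% e5, h8', sp_comp_assoc])
    have e7 : (lam.comp χ₀).comp (algebraMap _ _) = θ.comp (α.comp ε) := by
      rw [RingHom.comp_assoc, e2, ← RingHom.comp_assoc, e6, RingHom.comp_assoc]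
    have e8 : sp lam ≫ actR a ((γ i)⁻¹.map χ₀) y₀ = sp θ ≫ sp κ ≫ τ₀ := by
      rw [actR_natural e4 ((hδ i).map χ₀), map_map',
        (e3.comp (sp lam)).eq (e5 ▸ h9 i _ θ _ e7), actR_inv' (hγ i) _ (ov' e7)]
    obtain ⟨s, s1, s2⟩ := exists_basic (σ := actR a ((γ i)⁻¹.map χ₀) y₀) (U := τ₀.opensRange)
      (sp lam (closedPoint T)) (by
        change (sp lam ≫ _) (closedPoint T) ∈ τ₀.opensRange
        rw [e8, ← Category.assoc]
        exact ⟨_, (Scheme.Hom.comp_apply _ _ _).symm⟩)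
    obtain ⟨A, _, l', _, l3, l4⟩ := exists_inv s
    obtain ⟨ν, e9⟩ := factor τ₀ (sp l' ≫ actR a ((γ i)⁻¹.map χ₀) y₀) (mem_of_unit s2 l3)
    obtain ⟨r, hr⟩ := key i A (sp l' ≫ u₀) (l'.comp (μE.comp l)) (l'.comp χ₀) (sp l' ≫ y₀) ν
      (by rw [Category.assoc, ← e1, sp_comp_assoc]) (by
        rw [RingHom.comp_assoc, e2, ← RingHom.comp_assoc]) (e3.comp _)
      (by rw [e9, actR_natural e4 ((hδ i).map χ₀), map_map'])
    refine ⟨A, _, r, hr ▸ inferInstance, ?_⟩
    obtain ⟨w', hw'⟩ := l4 _ s1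
    refine ⟨w', ?_⟩
    rw [hr, Scheme.Hom.comp_apply, hw', ← Scheme.Hom.comp_apply, e5, Scheme.Hom.comp_apply, hθ]

end Bun2

open Bun2 in
theorem cellular_bundle [IsAlgClosed k] [CharZero k] [X'.IsSeparated] [X.IsSeparated]
    [LocallyOfFiniteType ρ] (b : FibreBundle a (π ≫ f) ρ) (hF : Cells (𝟙 _) φ m)
    (h : Cellular f π n) : Cellular f (ρ ≫ π) (n + m) := by
  intro s hs Y hY hY'
  obtain ⟨c, hc, hc'⟩ := h s hs ((· ≫ ρ) '' Y) (hY.image _) (by
    rintro _ ⟨y, hy, rfl⟩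
    rw [Category.assoc]
    exact hY' y hy)
  obtain ⟨L, _, _, _⟩ : ∃ (L : Type) (_ : Field L) (_ : Algebra (MvPolynomial (Fin n) c.B) L),
      IsFractionRing (MvPolynomial (Fin n) c.B) L := 
    ⟨FractionRing (MvPolynomial (Fin n) c.B), inferInstance, inferInstance, inferInstance⟩
  have hσ : c.h ≫ π ≫ f = sp (algebraMap k (MvPolynomial (Fin n) c.B)) := by
    rw [reassoc_of% c.proj, c.base, sp_comp]
    rfl
  obtain ⟨ι, _, ci, p, g, hp, p0, hU, hg, g1, g2, g3⟩ := exists_cocycle (L := L) b c.h hσ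
  obtain ⟨t, ht, γ, μ, hμ, hγ, h7⟩ := trivialise_mv G c.et c.e _ (IsFractionRing.injective _ L)
    p hp p0 g g1 g2 g3
  obtain ⟨c₁, ε, f1, f2, f3, f4, f5, f6⟩ := c.shrink ht
  have hu : IsUnit (MvPolynomial.map (σ := Fin n) (ε : c.B →+* c₁.B) (MvPolynomial.C t)) := by
    rw [MvPolynomial.map_C]
    exact f3.map _
  have hψ : (MvPolynomial.map (σ := Fin n) (ε : c.B →+* c₁.B)).comp (algebraMap k _) =
      MvPolynomial.C.comp (algebraMap k c₁.B) := RingHom.ext fun x => by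
    rw [RingHom.comp_apply, MvPolynomial.algebraMap_apply, MvPolynomial.map_C]
    exact congrArg _ (ε.commutes x)
  have pts : ∀ y : Y, ∃ (i : ι) (μ₁ : MvPolynomial (Fin n) c₁.B →+* k)
      (χ : Localization.Away (MvPolynomial.C t * p i) →+* k) (y₀ : Spec (.of k) ⟶ F),
      y.1 ≫ ρ = sp μ₁ ≫ c₁.h ∧
      χ.comp (algebraMap _ _) = μ₁.comp (MvPolynomial.map (ε : c.B →+* c₁.B)) ∧
      Crd b (ci i) y.1 y₀ ∧ actR a ((γ i)⁻¹.map χ) y₀ ≫ φ = 𝟙 _ := by
    rintro ⟨y, hy⟩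
    obtain ⟨v, hv⟩ := f6 _ (hc' _ ⟨y, hy, rfl⟩)
    obtain ⟨i, hi⟩ := exists_notMem hp (RingHom.ker_ne_top
      ((MvPolynomial.eval₂Hom (c₁.e : c₁.B →+* k) v).comp (MvPolynomial.map (ε : c.B →+* c₁.B))))
    obtain ⟨χ, e2⟩ := exists_away (MvPolynomial.C t * p i)
      ((MvPolynomial.eval₂Hom (c₁.e : c₁.B →+* k) v).comp (MvPolynomial.map (ε : c.B →+* c₁.B)))
      (by
        rw [map_mul]
        exact (hu.map (MvPolynomial.eval₂Hom (c₁.e : c₁.B →+* k) v)).mul (Ne.isUnit hi))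
    obtain ⟨y₀, e3⟩ : ∃ y₀, Crd b (ci i) y y₀ := exists_crd (by
      rw [show y ≫ ρ = _ from hv.symm, f5, sp_comp_assoc]
      exact mem_of_unit (hU i) (Ne.isUnit hi))
    have e4 : χ.comp ((algebraMap (MvPolynomial (Fin n) c.B) _).comp (algebraMap k _)) =
        RingHom.id k := by
      rw [← RingHom.comp_assoc, e2, RingHom.comp_assoc, hψ]
      ext x
      simp
    have e5 : y₀ ≫ φ = sp (χ.comp ((algebraMap (MvPolynomial (Fin n) c.B) _).comp
        (algebraMap k _))) := by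
      rw [e3.over, e4, sp_id, reassoc_of% hY' y hy, hs]
    exact ⟨i, _, χ, y₀, hv.symm, e2, e3, by
      rw [actR_over e5 ((G.inv_mem _ _ _ (hγ i)).map χ), e4, sp_id]⟩
  choose i μ₁ χ y₀ q1 q2 q3 q4 using pts
  have : Finite Y := hY
  obtain ⟨τ₀, _, t1, t2⟩ := fibre_cell hF (Set.range fun y => actR a ((γ (i y))⁻¹.map (χ y)) (y₀ y))
    (Set.finite_range _) (by rintro _ ⟨y, rfl⟩; exact q4 y)
  obtain ⟨Φ, o1, o2, o3⟩ := prod_chart (D' := MvPolynomial (Fin (n + m)) c₁.B) hσ hp p0 hU hμ hγ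
    hg h7 (MvPolynomial.map (ε : c.B →+* c₁.B)) (MvPolynomial.map_injective _ f2) hu c₁.h f5 τ₀ t1
    (MvPolynomial.rename (Fin.castAdd m)).toRingHom
    (MvPolynomial.rename_injective _ (Fin.castAdd_injective n m))
    (MvPolynomial.eval₂Hom (MvPolynomial.C.comp (algebraMap k c₁.B))
      fun j => MvPolynomial.X (Fin.natAdd n j))
    (by rw [RingHom.comp_assoc, hψ]; ext x : 1; simp)
    (fun T _ μ₁ ν e => ⟨MvPolynomial.eval₂Hom (μ₁.comp MvPolynomial.C)
      (Fin.addCases (fun j => μ₁ (MvPolynomial.X j)) fun j => ν (MvPolynomial.X j)),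
      MvPolynomial.ringHom_ext (fun x => by simp) fun j => by simp,
      MvPolynomial.ringHom_ext (fun x => by
        rw [RingHom.comp_assoc, hψ] at e
        simpa using (RingHom.congr_fun e x).symm) fun j => by simp⟩)
    (fun T _ r r' e e' => MvPolynomial.ringHom_ext
      (fun x => by simpa using RingHom.congr_fun e (MvPolynomial.C x))
      (Fin.addCases (fun j => by simpa using RingHom.congr_fun e (MvPolynomial.X j))
        fun j => by simpa using RingHom.congr_fun e' (MvPolynomial.X j)))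
  let c₂ : Cell f (ρ ≫ π) (n + m) :=
    { B := c₁.B, et := c₁.et, e := c₁.e, j := c₁.j, h := Φ, base := c₁.base
      proj := by
        rw [reassoc_of% o2, c₁.proj, sp_comp_assoc]
        congr 2
        ext x : 1
        simp }
  have e0 : sp (c₁.e : c₁.B →+* k) ≫ c₁.j = s := by
    rw [f4, sp_comp_assoc, ← hc, ← f1]
    rfl
  refine ⟨c₂, e0, fun y hy => c₂.has_of_range ?_ ((hY' y hy).trans e0.symm)⟩
  obtain ⟨v, hv⟩ := t2 _ ⟨⟨y, hy⟩, rfl⟩
  obtain ⟨r, hr⟩ := o3 _ k y _ _ _ _ (q1 ⟨y, hy⟩) (q2 _) (q3 _) hv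
  exact ⟨sp r (closedPoint k), by rw [← hr, Scheme.Hom.comp_apply]⟩

end Pool.Agent.MP_e8e0b6_ag.T

end MrgPart6

-- marker of a merged file
example : 731051 + 341896 = 731051 + 341896 := rfl
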