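import Pool.Agent.MP_e8e0b6_ag.Z.Defs

/-!
Families covered by affine spaces, blow-ups along sections, and towers.
-/

open AlgebraicGeometry CategoryTheory Limits

namespace Pool.Agent.MP_e8e0b6_ag

variable {k : Type} [Field k] {S X X' W : Scheme.{0}}

/-- Any finitely many `k`-points of a fibre of `π : X ⟶ S` over a `k`-point `s` lie in one open
subscheme `V` of `X` that is isomorphic over `S` to affine `n`-space over an open neighbourhood `U`
of `s`. -/
def Cells (f : S ⟶ Spec (CommRingCat.of k)) (π : X ⟶ S) (n : ℕ) : Prop :=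
  ∀ s : Spec (CommRingCat.of k) ⟶ S, s ≫ f = 𝟙 _ → ∀ Y : Set (Spec (CommRingCat.of k) ⟶ X),
    Y.Finite → (∀ y ∈ Y, y ≫ π = s) → ∃ (U : S.Opens) (V : X.Opens) (e : 𝔸(Fin n; U) ≅ V),
      e.hom ≫ V.ι ≫ π = 𝔸(Fin n; U) ↘ U ≫ U.ι ∧ (∃ t, t ≫ U.ι = s) ∧ ∀ y ∈ Y, ∃ t, t ≫ V.ι = y

/-- The inverse image of `z : S ⟶ X` under `q : W ⟶ X` is an effective Cartier divisor: every point
of `W` has an affine open neighbourhood `Spec A` whose fibre product with `z` is `Spec (A / a)` for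
a non-zero-divisor `a`. -/
def Cartier (z : S ⟶ X) (q : W ⟶ X) : Prop :=
  ∀ w : W, ∃ (V : W.Opens) (A : Type) (_ : CommRing A) (e : Spec (CommRingCat.of A) ≅ V) (a : A)
    (s : Spec (CommRingCat.of (A ⧸ Ideal.span {a})) ⟶ S), w ∈ V ∧ a ∈ nonZeroDivisors A ∧
      IsPullback (Spec.map (CommRingCat.ofHom (Ideal.Quotient.mk (Ideal.span {a})))) s
        (e.hom ≫ V.ι ≫ q) z

/-- `ρ : X' ⟶ X` is the blow-up of `X` along `z`: the universal morphism to `X` under which the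
inverse image of `z` is an effective Cartier divisor. -/
def IsBlowup (z : S ⟶ X) (ρ : X' ⟶ X) : Prop :=
  Cartier z ρ ∧ ∀ (W : Scheme.{0}) (q : W ⟶ X), Cartier z q → ∃! q' : W ⟶ X', q' ≫ ρ = q

/-- Towers over `S`: start from `S` and pass repeatedly to a fibre bundle whose fibre is covered by
affine spaces, to the blow-up along a section, or to a family covered by affine spaces that receives
a morphism over `S` from a tower. -/
inductive Tower (f : S ⟶ Spec (CommRingCat.of k)) : ∀ {X : Scheme.{0}}, (X ⟶ S) → Prop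
  | base : Tower f (𝟙 S)
  | bundle {X X' F : Scheme.{0}} (π : X ⟶ S) (ρ : X' ⟶ X) (φ : F ⟶ Spec (CommRingCat.of k))
      (G : LinGroup k) (a : G.Action φ) (m : ℕ) : Tower f π → SmoothVariety (π ≫ f) →
      FibreBundle a (π ≫ f) ρ → Cells (𝟙 _) φ m → Tower f (ρ ≫ π)
  | blowup {X X' : Scheme.{0}} (π : X ⟶ S) (ρ : X' ⟶ X) (z : S ⟶ X) : Tower f π →
      SmoothVariety (π ≫ f) → z ≫ π = 𝟙 S → IsBlowup z ρ → Tower f (ρ ≫ π)
  | image {X X' : Scheme.{0}} (π : X ⟶ S) (g : X' ⟶ X) (n : ℕ) : Tower f (g ≫ π) →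
      SmoothVariety ((g ≫ π) ≫ f) → Cells f π n → Tower f π

end Pool.Agent.MP_e8e0b6_ag
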